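import Mathlib

/-!
# Mean values of trigonometric polynomials (for an explicit Kronecker theorem)
-/

namespace PRF

theorem integral_cos_lin {T ω κ δ : ℝ} (hδ : 0 < δ) (hω : δ ≤ |ω|) :
    |∫ t in (0:ℝ)..T, Real.cos (t * ω - κ)| ≤ 2 / δ := by
  have hω0 : ω ≠ 0 := by
    intro h
    rw [h, abs_zero] at hω
    linarith
  have h1 : ∀ t ∈ Set.uIcc (0:ℝ) T,
      HasDerivAt (fun t : ℝ => Real.sin (t * ω - κ) / ω) (Real.cos (t * ω - κ)) t := by
    intro t _
    have h2 : HasDerivAt (fun t : ℝ => t * ω - κ) ω t := by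
      simpa using ((hasDerivAt_id t).mul_const ω).sub_const κ
    have h3 := (h2.sin).div_const ω
    rwa [mul_div_assoc, div_self hω0, mul_one] at h3
  rw [intervalIntegral.integral_eq_sub_of_hasDerivAt h1]
  · rw [← sub_div, abs_div]
    have h4 : |Real.sin (T * ω - κ) - Real.sin (0 * ω - κ)| ≤ 2 := by
      have h5 := Real.abs_sin_le_one (T * ω - κ)
      have h6 := Real.abs_sin_le_one (0 * ω - κ)
      calc |Real.sin (T * ω - κ) - Real.sin (0 * ω - κ)|
          ≤ |Real.sin (T * ω - κ)| + |Real.sin (0 * ω - κ)| := abs_sub _ _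
        _ ≤ 2 := by linarith
    calc |Real.sin (T * ω - κ) - Real.sin (0 * ω - κ)| / |ω|
        ≤ 2 / |ω| := by gcongr
      _ ≤ 2 / δ := by gcongr
  · apply Continuous.intervalIntegrable
    fun_prop

/-- mean value of `|g|^2` for a trigonometric polynomial with separated frequencies -/
theorem exists_large {ι : Type*} [Fintype ι] (L C : ι → ℝ) {T δ : ℝ} (hT : 0 < T) (hδ : 0 < δ)
    (hsep : ∀ x y, L x ≠ L y → δ ≤ |L x - L y|) (hC : ∀ x y, L x = L y → C x = C y)
    (E : Finset (ι × ι)) (hE : ∀ p ∈ E, L p.1 = L p.2) :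
    ∃ t : ℝ, 0 ≤ t ∧ t ≤ T ∧
      (E.card : ℝ) - (Fintype.card ι : ℝ) ^ 2 * (2 / (δ * T)) ≤
        (∑ x, Real.cos (t * L x - C x)) ^ 2 + (∑ x, Real.sin (t * L x - C x)) ^ 2 := by
  classical
  have hexp : ∀ t : ℝ, (∑ x, Real.cos (t * L x - C x)) ^ 2 + (∑ x, Real.sin (t * L x - C x)) ^ 2 =
      ∑ p : ι × ι, Real.cos (t * (L p.1 - L p.2) - (C p.1 - C p.2)) := by
    intro t
    rw [Fintype.sum_prod_type, sq, sq, Finset.sum_mul_sum, Finset.sum_mul_sum,
      ← Finset.sum_add_distrib]
    apply Finset.sum_congr rfl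
    intro x _
    rw [← Finset.sum_add_distrib]
    apply Finset.sum_congr rfl
    intro y _
    have h0 : t * (L (x, y).1 - L (x, y).2) - (C (x, y).1 - C (x, y).2) =
      (t * L x - C x) - (t * L y - C y) := by simp only; ring
    rw [h0]
    exact (Real.cos_sub _ _).symm
  by_contra hcon
  push Not at hcon
  set m : ℝ := (E.card : ℝ) - (Fintype.card ι : ℝ) ^ 2 * (2 / (δ * T)) with hm
  -- the integral
  have hint : ∀ p : ι × ι, IntervalIntegrable
      (fun t : ℝ => Real.cos (t * (L p.1 - L p.2) - (C p.1 - C p.2))) MeasureTheory.volume 0 T := by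
    intro p
    apply Continuous.intervalIntegrable
    fun_prop
  have h1 : ∫ t in (0:ℝ)..T, ∑ p : ι × ι, Real.cos (t * (L p.1 - L p.2) - (C p.1 - C p.2)) =
      ∑ p : ι × ι, ∫ t in (0:ℝ)..T, Real.cos (t * (L p.1 - L p.2) - (C p.1 - C p.2)) :=
    intervalIntegral.integral_finsetSum fun p _ => hint p
  have h2 : ∀ p : ι × ι, (if p ∈ E then T else 0) - 2 / δ ≤
      ∫ t in (0:ℝ)..T, Real.cos (t * (L p.1 - L p.2) - (C p.1 - C p.2)) := by
    intro p
    have hd : 0 < 2 / δ := by positivity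
    by_cases hp : L p.1 = L p.2
    · have h3 : ∀ t : ℝ, Real.cos (t * (L p.1 - L p.2) - (C p.1 - C p.2)) = 1 := by
        intro t
        rw [hC _ _ hp, hp]
        simp
      simp only [h3]
      rw [intervalIntegral.integral_const]
      simp only [sub_zero, smul_eq_mul, mul_one]
      split_ifs <;> linarith
    · have h3 := integral_cos_lin (T := T) (κ := C p.1 - C p.2) hδ (hsep _ _ hp)
      have h4 : p ∉ E := fun h => hp (hE p h)
      rw [if_neg h4]
      have := (abs_le.mp h3).1
      linarith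
  have h3 : T * m ≤ ∫ t in (0:ℝ)..T, ∑ p : ι × ι,
      Real.cos (t * (L p.1 - L p.2) - (C p.1 - C p.2)) := by
    rw [h1]
    refine le_trans ?_ (Finset.sum_le_sum fun p _ => h2 p)
    rw [Finset.sum_sub_distrib, ← Finset.sum_filter, Finset.sum_const, Finset.sum_const,
      Finset.card_univ, Fintype.card_prod, Finset.filter_mem_eq_inter, Finset.univ_inter]
    simp only [nsmul_eq_mul, Nat.cast_mul]
    rw [hm]
    have : T * ((E.card : ℝ) - (Fintype.card ι : ℝ) ^ 2 * (2 / (δ * T))) =
      (E.card : ℝ) * T - (Fintype.card ι : ℝ) * (Fintype.card ι : ℝ) * (2 / δ) := by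
      field_simp
    rw [this]
  have h4 : ∫ t in (0:ℝ)..T, ∑ p : ι × ι,
      Real.cos (t * (L p.1 - L p.2) - (C p.1 - C p.2)) < T * m := by
    have h5 : ∫ t in (0:ℝ)..T, m = T * m := by
      rw [intervalIntegral.integral_const]
      simp
    rw [← h5]
    apply intervalIntegral.integral_lt_integral_of_continuousOn_of_le_of_exists_lt hT
    · apply Continuous.continuousOn
      fun_prop
    · exact continuousOn_const
    · intro t ht
      have := hcon t ht.1.le ht.2
      rw [hexp] at this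
      exact this.le
    · refine ⟨0, ⟨le_rfl, hT.le⟩, ?_⟩
      have := hcon 0 le_rfl hT.le
      rw [hexp] at this
      exact this
  linarith

end PRF
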