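import Mathlib
import Pool.Agent.PRF.Kron1

/-!
# An explicit Kronecker theorem for the logarithms of the primes (Bohr's proof)
-/

namespace PRF

/-- the completely additive function with values `c q` at the primes -/
noncomputable def chi (c : ℕ → ℝ) (n : ℕ) : ℝ := n.factorization.sum fun q e => (e : ℝ) * c q

theorem chi_mul (c : ℕ → ℝ) {m n : ℕ} (hm : m ≠ 0) (hn : n ≠ 0) :
    chi c (m * n) = chi c m + chi c n := by
  unfold chi
  rw [Nat.factorization_mul hm hn, Finsupp.sum_add_index']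
  · intro q; simp
  · intro q e e'; push_cast; ring

theorem chi_one (c : ℕ → ℝ) : chi c 1 = 0 := by
  unfold chi
  simp

theorem chi_prime (c : ℕ → ℝ) {q : ℕ} (hq : q.Prime) : chi c q = c q := by
  unfold chi
  rw [hq.factorization, Finsupp.sum_single_index] <;> simp

theorem chi_prod (c : ℕ → ℝ) {κ : Type*} (s : Finset κ) (x : κ → ℕ) (hx : ∀ i ∈ s, x i ≠ 0) :
    chi c (∏ i ∈ s, x i) = ∑ i ∈ s, chi c (x i) := by
  classical
  induction s using Finset.induction_on with
  | empty => simp [chi_one]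
  | insert a s ha ih =>
    rw [Finset.prod_insert ha, Finset.sum_insert ha, chi_mul, ih]
    · intro i hi; exact hx i (Finset.mem_insert_of_mem hi)
    · exact hx a (Finset.mem_insert_self a s)
    · exact Finset.prod_ne_zero_iff.mpr fun i hi => hx i (Finset.mem_insert_of_mem hi)

/-- number of pairs with equal keys -/
theorem card_pairs {ι κ : Type*} [Fintype ι] [Fintype κ] [DecidableEq κ] (K : ι → κ) :
    (Fintype.card ι : ℝ) ^ 2 ≤ (Fintype.card κ : ℝ) *
      ((Finset.univ.filter fun p : ι × ι => K p.1 = K p.2).card : ℝ) := by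
  classical
  set r : κ → ℕ := fun k => (Finset.univ.filter fun x : ι => K x = k).card with hr
  have h1 : Fintype.card ι = ∑ k, r k := by
    rw [← Finset.card_univ]
    exact Finset.card_eq_sum_card_fiberwise (f := K) (t := Finset.univ) (fun x _ => Finset.mem_coe.mpr (Finset.mem_univ _))
  have h2 : (Finset.univ.filter fun p : ι × ι => K p.1 = K p.2).card = ∑ k, r k ^ 2 := by
    rw [Finset.card_eq_sum_card_fiberwise (f := fun p : ι × ι => K p.1) (t := Finset.univ)
      (fun x _ => Finset.mem_coe.mpr (Finset.mem_univ _))]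
    apply Finset.sum_congr rfl
    intro k _
    rw [hr, sq, ← Finset.card_product]
    congr 1
    ext ⟨x, y⟩
    simp only [Finset.mem_filter, Finset.mem_univ, true_and, Finset.mem_product]
    constructor
    · rintro ⟨h, h'⟩; exact ⟨h', h ▸ h'⟩
    · rintro ⟨h, h'⟩; exact ⟨h.trans h'.symm, h⟩
  rw [h1, h2]
  have h3 := sq_sum_le_card_mul_sum_sq (s := (Finset.univ : Finset κ)) (f := fun k => (r k : ℝ))
  push_cast
  simpa using h3

/-- logarithms of distinct positive integers are separated -/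
theorem log_sep {m n B : ℕ} (hm : 0 < m) (hn : 0 < n) (hmB : m ≤ B) (hnB : n ≤ B) (hne : m ≠ n) :
    1 / (B : ℝ) ≤ |Real.log m - Real.log n| := by
  wlog h : n < m generalizing m n
  · have := this hn hm hnB hmB hne.symm (by omega)
    rwa [abs_sub_comm] at this
  have hm' : (0:ℝ) < m := by exact_mod_cast hm
  have hn' : (0:ℝ) < n := by exact_mod_cast hn
  have hB' : (0:ℝ) < B := by exact_mod_cast (by omega : 0 < B)
  have h1 : 1 - (m / n : ℝ)⁻¹ ≤ Real.log (m / n : ℝ) := Real.one_sub_inv_le_log_of_pos (by positivity)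
  have h2 : 1 / (B:ℝ) ≤ 1 - (m / n : ℝ)⁻¹ := by
    rw [inv_div]
    have h3 : (n:ℝ) + 1 ≤ m := by exact_mod_cast h
    have h4 : (m:ℝ) ≤ B := by exact_mod_cast hmB
    have h5 : 1 / (B:ℝ) ≤ 1 / m := one_div_le_one_div_of_le hm' h4
    have h6 : 1 - (n:ℝ) / m = (m - n) / m := by field_simp
    rw [h6]
    refine h5.trans ?_
    gcongr
    linarith
  rw [Real.log_div hm'.ne' hn'.ne'] at h1
  exact (h2.trans h1).trans (le_abs_self _)

/-- the primes up to `Q`, and `1` -/
def SQ (Q : ℕ) : Finset ℕ := insert 1 ((Finset.range (Q + 1)).filter Nat.Prime)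

theorem SQ_card {Q : ℕ} (hQ : 1 ≤ Q) : (SQ Q).card ≤ Q := by
  have h1 : SQ Q ⊆ Finset.Icc 1 Q := by
    intro n hn
    unfold SQ at hn
    rw [Finset.mem_insert, Finset.mem_filter, Finset.mem_range] at hn
    rw [Finset.mem_Icc]
    rcases hn with rfl | ⟨h, h'⟩
    · omega
    · have := h'.pos; omega
  have := Finset.card_le_card h1
  simpa using this

theorem SQ_le {Q n : ℕ} (hQ : 1 ≤ Q) (hn : n ∈ SQ Q) : 0 < n ∧ n ≤ Q := by
  unfold SQ at hn
  rw [Finset.mem_insert, Finset.mem_filter, Finset.mem_range] at hn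
  rcases hn with rfl | ⟨h, h'⟩
  · omega
  · have := h'.pos; omega

theorem final_ineq (N Q : ℕ) {s q e : ℝ} (hq : 0 < q)
    (h : (s ^ N) ^ 2 ≤ ((N:ℝ) + 1) ^ Q * e) :
    s ^ (2 * N) / (2 * ((N:ℝ) + 1) ^ Q) ≤
      e - (s ^ N) ^ 2 * (2 / (1 / q * (4 * q * ((N:ℝ) + 1) ^ Q))) := by
  have hN1 : (0:ℝ) < ((N:ℝ) + 1) ^ Q := by positivity
  have h6 : (s ^ N) ^ 2 / ((N:ℝ) + 1) ^ Q ≤ e := by
    rw [div_le_iff₀ hN1]
    linarith
  have h7 : (s ^ N) ^ 2 * (2 / (1 / q * (4 * q * ((N:ℝ) + 1) ^ Q))) =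
      (s ^ N) ^ 2 / (2 * ((N:ℝ) + 1) ^ Q) := by
    field_simp
    ring
  rw [h7]
  have h8 : (s ^ N) ^ 2 / ((N:ℝ) + 1) ^ Q = 2 * ((s ^ N) ^ 2 / (2 * ((N:ℝ) + 1) ^ Q)) := by
    field_simp
  have h9 : s ^ (2 * N) = (s ^ N) ^ 2 := by
    rw [mul_comm, pow_mul]
  rw [h9]
  linarith

theorem exists_large_pow {Q N : ℕ} (hQ : 1 ≤ Q) (c : ℕ → ℝ) :
    ∃ t : ℝ, 0 ≤ t ∧ t ≤ 4 * (Q:ℝ) ^ N * ((N:ℝ) + 1) ^ Q ∧
      ((SQ Q).card : ℝ) ^ (2 * N) / (2 * ((N:ℝ) + 1) ^ Q) ≤
        Complex.normSq (∑ n ∈ SQ Q, Complex.exp (Complex.I * ((t * Real.log n - chi c n : ℝ) : ℂ))) ^ N := by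
  classical
  have hQ' : (1:ℝ) ≤ Q := by exact_mod_cast hQ
  set S := SQ Q with hS
  set L : (Fin N → S) → ℝ := fun x => ∑ i, Real.log ((x i : ℕ) : ℝ) with hL
  set C : (Fin N → S) → ℝ := fun x => ∑ i, chi c (x i : ℕ) with hC
  set P : (Fin N → S) → ℕ := fun x => ∏ i, (x i : ℕ) with hP
  have hpos : ∀ (x : Fin N → S) i, 0 < (x i : ℕ) := fun x i => (SQ_le hQ (x i).2).1
  have hle : ∀ (x : Fin N → S) i, (x i : ℕ) ≤ Q := fun x i => (SQ_le hQ (x i).2).2
  have hPpos : ∀ x, 0 < P x := fun x => Finset.prod_pos fun i _ => hpos x i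
  have hPle : ∀ x, P x ≤ Q ^ N := by
    intro x
    calc P x ≤ ∏ _i : Fin N, Q := Finset.prod_le_prod' fun i _ => hle x i
      _ = Q ^ N := by simp
  have hLP : ∀ x, L x = Real.log (P x) := by
    intro x
    rw [hL, hP]
    simp only
    rw [Nat.cast_prod, Real.log_prod]
    intro i _
    exact_mod_cast (hpos x i).ne'
  have hCP : ∀ x, C x = chi c (P x) := by
    intro x
    rw [hC, hP]
    simp only
    rw [chi_prod]
    intro i _
    exact (hpos x i).ne'
  have hinj : ∀ x y, L x = L y → P x = P y := by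
    intro x y h
    rw [hLP, hLP] at h
    have := Real.log_injOn_pos (Set.mem_Ioi.mpr (by exact_mod_cast hPpos x))
      (Set.mem_Ioi.mpr (by exact_mod_cast hPpos y)) h
    exact_mod_cast this
  have hsep : ∀ x y, L x ≠ L y → 1 / ((Q:ℝ) ^ N) ≤ |L x - L y| := by
    intro x y h
    rw [hLP, hLP]
    have hne : P x ≠ P y := by
      intro h'
      apply h
      rw [hLP, hLP, h']
    have := log_sep (hPpos x) (hPpos y) (hPle x) (hPle y) hne
    rwa [Nat.cast_pow] at this
  have hCC : ∀ x y, L x = L y → C x = C y := by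
    intro x y h
    rw [hCP, hCP, hinj x y h]
  -- keys
  set K : (Fin N → S) → (S → Fin (N + 1)) := fun x s =>
    ⟨(Finset.univ.filter fun i => x i = s).card, by
      have := Finset.card_le_univ (Finset.univ.filter fun i => x i = s)
      rw [Fintype.card_fin] at this
      omega⟩ with hK
  set E := Finset.univ.filter fun p : (Fin N → S) × (Fin N → S) => K p.1 = K p.2 with hEdef
  have hLK : ∀ x, L x = ∑ s : S, ((K x s : ℕ) : ℝ) * Real.log ((s : ℕ) : ℝ) := by
    intro x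
    rw [hL]
    simp only
    rw [← Finset.sum_fiberwise_of_maps_to (s := Finset.univ) (t := Finset.univ) (g := x)
      (fun i _ => Finset.mem_univ _)]
    apply Finset.sum_congr rfl
    intro s _
    rw [Finset.sum_congr rfl (g := fun _ => Real.log ((s : ℕ) : ℝ))]
    · rw [Finset.sum_const, nsmul_eq_mul]
    · intro i hi
      rw [(Finset.mem_filter.mp hi).2]
  have hE : ∀ p ∈ E, L p.1 = L p.2 := by
    intro p hp
    rw [hEdef, Finset.mem_filter] at hp
    rw [hLK, hLK, hp.2]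
  have hT : (0:ℝ) < 4 * (Q:ℝ) ^ N * ((N:ℝ) + 1) ^ Q := by positivity
  obtain ⟨t, ht0, htT, ht⟩ := exists_large L C hT (by positivity : (0:ℝ) < 1 / ((Q:ℝ) ^ N))
    hsep hCC E hE
  refine ⟨t, ht0, htT, ?_⟩
  have hcard : (Fintype.card (Fin N → S) : ℝ) = (S.card : ℝ) ^ N := by
    rw [Fintype.card_fun, Fintype.card_fin, Fintype.card_coe, Nat.cast_pow]
  have hcard2 : (Fintype.card (S → Fin (N + 1)) : ℝ) ≤ ((N:ℝ) + 1) ^ Q := by
    rw [Fintype.card_fun, Fintype.card_fin, Fintype.card_coe]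
    push_cast
    exact pow_le_pow_right₀ (by linarith [(Nat.cast_nonneg N : (0:ℝ) ≤ N)]) (SQ_card hQ)
  have hpairs := card_pairs K
  rw [hcard] at hpairs ht
  have hg : Complex.normSq (∑ n ∈ S, Complex.exp (Complex.I * ((t * Real.log n - chi c n : ℝ) : ℂ))) ^ N =
      (∑ x, Real.cos (t * L x - C x)) ^ 2 + (∑ x, Real.sin (t * L x - C x)) ^ 2 := by
    rw [← map_pow]
    have h1 : (∑ n ∈ S, Complex.exp (Complex.I * ((t * Real.log n - chi c n : ℝ) : ℂ))) =
        ∑ s : S, Complex.exp (Complex.I * ((t * Real.log ((s:ℕ):ℝ) - chi c (s:ℕ) : ℝ) : ℂ)) := by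
      exact (Finset.sum_coe_sort S (fun n : ℕ =>
        Complex.exp (Complex.I * ((t * Real.log n - chi c n : ℝ) : ℂ)))).symm
    rw [h1, Fintype.sum_pow]
    have h2 : ∀ x : Fin N → S, ∏ i, Complex.exp (Complex.I *
        ((t * Real.log ((x i : ℕ) : ℝ) - chi c (x i : ℕ) : ℝ) : ℂ)) =
        Complex.exp (((t * L x - C x : ℝ) : ℂ) * Complex.I) := by
      intro x
      rw [← Complex.exp_sum, hL, hC]
      congr 1
      rw [← Finset.mul_sum, ← Complex.ofReal_sum, Finset.sum_sub_distrib, ← Finset.mul_sum, mul_comm]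
    simp only [h2]
    rw [Complex.normSq_apply, Complex.re_sum, Complex.im_sum]
    simp only [Complex.exp_ofReal_mul_I_re, Complex.exp_ofReal_mul_I_im]
    ring
  rw [hg]
  refine le_trans ?_ ht
  exact final_ineq N Q (by positivity) (hpairs.trans (mul_le_mul_of_nonneg_right hcard2 (Nat.cast_nonneg _)))

end PRF
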