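import Mathlib
import Pool.Agent.PRF.Kron2

/-!
# An explicit Kronecker theorem for the logarithms of the primes
-/

namespace PRF

theorem norm_one_add_exp {α η : ℝ} (hη : 0 ≤ η) (hη2 : η ≤ 4) (h : Real.cos α ≤ 1 - η) :
    ‖(1 : ℂ) + Complex.exp (Complex.I * (α : ℂ))‖ ≤ 2 - η / 2 := by
  have h1 : ‖(1 : ℂ) + Complex.exp (Complex.I * (α : ℂ))‖ ^ 2 = 2 + 2 * Real.cos α := by
    rw [← Complex.normSq_eq_norm_sq, mul_comm, Complex.normSq_apply, Complex.add_re, Complex.add_im,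
      Complex.exp_ofReal_mul_I_re, Complex.exp_ofReal_mul_I_im, Complex.one_re, Complex.one_im]
    have := Real.sin_sq_add_cos_sq α
    nlinarith
  apply abs_le_of_sq_le_sq' _ (by linarith) |>.2
  rw [h1]
  nlinarith

theorem norm_sum_le {Q q : ℕ} (hqp : q.Prime) (hq : q ≤ Q) {t η : ℝ} {c : ℕ → ℝ} (hη : 0 ≤ η)
    (hη2 : η ≤ 4) (h : Real.cos (t * Real.log q - chi c q) ≤ 1 - η) :
    ‖∑ n ∈ SQ Q, Complex.exp (Complex.I * ((t * Real.log n - chi c n : ℝ) : ℂ))‖ ≤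
      ((SQ Q).card : ℝ) - η / 2 := by
  classical
  have h1 : 1 ∈ SQ Q := Finset.mem_insert_self _ _
  have h2 : q ∈ (SQ Q).erase 1 := by
    rw [Finset.mem_erase]
    refine ⟨hqp.one_lt.ne', ?_⟩
    unfold SQ
    rw [Finset.mem_insert, Finset.mem_filter, Finset.mem_range]
    right
    exact ⟨by omega, hqp⟩
  rw [← Finset.add_sum_erase _ _ h1, ← Finset.add_sum_erase _ _ h2, ← add_assoc]
  have h3 : Complex.exp (Complex.I * ((t * Real.log ((1:ℕ):ℝ) - chi c 1 : ℝ) : ℂ)) = 1 := by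
    rw [chi_one]
    simp
  rw [h3]
  have h4 : (((SQ Q).erase 1).erase q).card + 2 = (SQ Q).card := by
    have h5 := Finset.card_erase_add_one h1
    have h6 := Finset.card_erase_add_one h2
    omega
  have h5 : ‖∑ x ∈ ((SQ Q).erase 1).erase q,
      Complex.exp (Complex.I * ((t * Real.log (x:ℝ) - chi c x : ℝ) : ℂ))‖ ≤
      ((((SQ Q).erase 1).erase q).card : ℝ) := by
    refine (_root_.norm_sum_le _ _).trans ?_
    rw [← nsmul_one, ← Finset.sum_const]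
    apply Finset.sum_le_sum
    intro x _
    rw [mul_comm, Complex.norm_exp_ofReal_mul_I]
  have h6 := norm_one_add_exp hη hη2 h
  refine (norm_add_le _ _).trans ?_
  have h7 : ((SQ Q).card : ℝ) = ((((SQ Q).erase 1).erase q).card : ℝ) + 2 := by
    rw [← h4]
    push_cast
    ring
  rw [h7]
  linarith

theorem cos_le_of_far {α x : ℝ} (hx : 0 ≤ x) (h : ∀ m : ℤ, x < |α / (2 * Real.pi) - m|) :
    Real.cos α ≤ 1 - 8 * x ^ 2 := by
  have hπ := Real.pi_pos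
  set m := round (α / (2 * Real.pi)) with hm
  have h1 := h m
  have h2 : |α / (2 * Real.pi) - m| ≤ 1 / 2 := abs_sub_round _
  have h3 : Real.cos α = Real.cos (α - m * (2 * Real.pi)) := by
    rw [Real.cos_sub_int_mul_two_pi]
  have h4 : α - m * (2 * Real.pi) = (α / (2 * Real.pi) - m) * (2 * Real.pi) := by
    field_simp
  have h5 : |α - m * (2 * Real.pi)| ≤ Real.pi := by
    rw [h4, abs_mul, abs_of_pos (by positivity : 0 < 2 * Real.pi)]
    nlinarith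
  have h6 := Real.cos_le_one_sub_mul_cos_sq h5
  rw [h3]
  refine h6.trans ?_
  rw [h4]
  have h7 : 2 / Real.pi ^ 2 * ((α / (2 * Real.pi) - m) * (2 * Real.pi)) ^ 2 =
      8 * (α / (2 * Real.pi) - m) ^ 2 := by
    field_simp
    ring
  rw [h7, ← sq_abs (α / (2 * Real.pi) - m)]
  nlinarith

theorem kron_size {Q : ℕ} (hQ : 1 ≤ Q) :
    4 * (Q:ℝ) ^ ((20000 * Q ^ 4) ^ 2) * ((((20000 * Q ^ 4) ^ 2 : ℕ) : ℝ) + 1) ^ Q ≤
      (2:ℝ) ^ (2 ^ (2 ^ (Q + 5)) : ℕ) := by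
  set N := (20000 * Q ^ 4) ^ 2 with hN
  have h1 : Q ≤ 2 ^ Q := (Nat.lt_two_pow_self).le
  have h2 : N + 1 ≤ 2 ^ N := Nat.lt_two_pow_self
  have h3 : 4 * Q ^ N * (N + 1) ^ Q ≤ 2 ^ (2 + Q * N + N * Q) := by
    rw [pow_add, pow_add, pow_mul, pow_mul]
    gcongr
    · norm_num
  have h4 : 2 + Q * N + N * Q ≤ 2 ^ (2 ^ (Q + 5)) := by
    have h5 : 2 + Q * N + N * Q ≤ 2 ^ 30 * Q ^ 9 := by
      rw [hN]
      have : 1 ≤ Q ^ 9 := Nat.one_le_pow _ _ hQ
      nlinarith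
    have h6 : Q ^ 9 ≤ 2 ^ (9 * Q) := by
      calc Q ^ 9 ≤ (2 ^ Q) ^ 9 := Nat.pow_le_pow_left h1 9
        _ = 2 ^ (9 * Q) := by rw [← pow_mul, mul_comm]
    calc 2 + Q * N + N * Q ≤ 2 ^ 30 * Q ^ 9 := h5
      _ ≤ 2 ^ 30 * 2 ^ (9 * Q) := by gcongr
      _ = 2 ^ (30 + 9 * Q) := by rw [← pow_add]
      _ ≤ 2 ^ (2 ^ (Q + 5)) := by
        apply Nat.pow_le_pow_right (by norm_num)
        have : Q + 1 ≤ 2 ^ Q := Nat.lt_two_pow_self
        rw [pow_add]
        omega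
  have h5 : 4 * Q ^ N * (N + 1) ^ Q ≤ 2 ^ (2 ^ (2 ^ (Q + 5))) :=
    h3.trans (Nat.pow_le_pow_right (by norm_num) h4)
  exact_mod_cast h5

theorem kron_exp {Q : ℕ} (hQ : 1 ≤ Q) :
    2 * ((((20000 * Q ^ 4) ^ 2 : ℕ) : ℝ) + 1) ^ Q <
      Real.exp (((20000 * Q ^ 4) ^ 2 : ℕ) / (5000 * (Q:ℝ) ^ 3)) := by
  have hQ' : (1:ℝ) ≤ Q := by exact_mod_cast hQ
  set M : ℝ := 20000 * (Q:ℝ) ^ 4 with hM
  have hM1 : (0:ℝ) ≤ M := by positivity
  have h0 : ((((20000 * Q ^ 4) ^ 2 : ℕ) : ℝ)) = M ^ 2 := by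
    rw [hM]; push_cast; ring
  rw [h0]
  have h1 : M ^ 2 + 1 ≤ Real.exp (2 * M) := by
    have h2 : M + 1 ≤ Real.exp M := Real.add_one_le_exp M
    have h3 : Real.exp (2 * M) = Real.exp M ^ 2 := by
      rw [← Real.exp_nat_mul]; norm_num
    rw [h3]
    have h4 : (M + 1) ^ 2 ≤ Real.exp M ^ 2 := pow_le_pow_left₀ (by linarith) h2 2
    nlinarith
  have h2 : (M ^ 2 + 1) ^ Q ≤ Real.exp (Q * (2 * M)) := by
    rw [Real.exp_nat_mul]
    exact pow_le_pow_left₀ (by positivity) h1 Q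
  have h3 : (2:ℝ) < Real.exp 1 := by
    have := Real.exp_one_gt_d9
    linarith
  calc 2 * (M ^ 2 + 1) ^ Q < Real.exp 1 * Real.exp (Q * (2 * M)) := by
        apply mul_lt_mul h3 h2 (by positivity) (Real.exp_pos 1).le
    _ = Real.exp (1 + Q * (2 * M)) := by rw [Real.exp_add]
    _ ≤ Real.exp (M ^ 2 / (5000 * (Q:ℝ) ^ 3)) := by
        apply Real.exp_le_exp.mpr
        rw [le_div_iff₀ (by positivity), hM]
        have h5 : (1:ℝ) ≤ (Q:ℝ) ^ 5 := one_le_pow₀ hQ'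
        have h6 : (0:ℝ) ≤ (Q:ℝ) ^ 3 := by positivity
        nlinarith [mul_le_mul_of_nonneg_right h5 h6]

/-- explicit Kronecker theorem for the logarithms of the primes up to `Q` -/
theorem kronecker_log {Q : ℕ} (hQ : 1 ≤ Q) (c : ℕ → ℝ) :
    ∃ θ : ℝ, 0 ≤ θ ∧ θ ≤ (2:ℝ) ^ (2 ^ (2 ^ (Q + 5)) : ℕ) ∧
      ∀ q, q.Prime → q ≤ Q → ∃ m : ℤ, |θ * Real.log q - c q - m| ≤ 1 / (200 * Q) := by
  have hQ' : (1:ℝ) ≤ Q := by exact_mod_cast hQ
  have hπ := Real.pi_pos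
  have hπ3 := Real.pi_gt_three
  obtain ⟨t, ht0, htT, ht⟩ := exists_large_pow (N := (20000 * Q ^ 4) ^ 2) hQ
    (fun q => 2 * Real.pi * c q)
  refine ⟨t / (2 * Real.pi), by positivity, ?_, ?_⟩
  · have h1 : t / (2 * Real.pi) ≤ t := by
      apply div_le_self ht0
      linarith
    exact h1.trans (htT.trans (kron_size hQ))
  · intro q hqp hq
    by_contra hcon
    push Not at hcon
    set N := (20000 * Q ^ 4) ^ 2 with hN
    have h1 : ∀ m : ℤ, 1 / (200 * (Q:ℝ)) <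
        |(t * Real.log q - chi (fun q => 2 * Real.pi * c q) q) / (2 * Real.pi) - m| := by
      intro m
      rw [chi_prime _ hqp]
      have h2 : (t * Real.log q - 2 * Real.pi * c q) / (2 * Real.pi) - m =
        t / (2 * Real.pi) * Real.log q - c q - m := by
        field_simp
      rw [h2]
      exact hcon m
    have h2 := cos_le_of_far (by positivity) h1
    set η : ℝ := 8 * (1 / (200 * (Q:ℝ))) ^ 2 with hη
    have hη1 : η = 1 / (5000 * (Q:ℝ) ^ 2) := by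
      rw [hη]; field_simp; norm_num
    have hη0 : 0 < η := by rw [hη1]; positivity
    have hη2 : η ≤ 1 := by
      rw [hη1, div_le_one (by positivity)]
      nlinarith
    have h3 := norm_sum_le hqp hq hη0.le (by linarith) h2
    set f := ∑ n ∈ SQ Q, Complex.exp (Complex.I *
      ((t * Real.log n - chi (fun q => 2 * Real.pi * c q) n : ℝ) : ℂ)) with hf
    rw [Complex.normSq_eq_norm_sq, ← pow_mul] at ht
    set s : ℝ := ((SQ Q).card : ℝ) with hs
    have hs1 : 1 ≤ s := by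
      rw [hs]
      exact_mod_cast Finset.card_pos.mpr ⟨1, Finset.mem_insert_self _ _⟩
    have hsQ : s ≤ Q := by
      rw [hs]
      exact_mod_cast SQ_card hQ
    have h4 : ‖f‖ ≤ s * Real.exp (-(η / (2 * Q))) := by
      have h5 : 1 - η / (2 * Q) ≤ Real.exp (-(η / (2 * Q))) := by
        have := Real.add_one_le_exp (-(η / (2 * Q)))
        linarith
      have h6 : s - η / 2 ≤ s * (1 - η / (2 * Q)) := by
        have h7 : s * (η / (2 * Q)) ≤ η / 2 := by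
          rw [mul_div_assoc', div_le_div_iff₀ (by positivity) (by norm_num)]
          nlinarith
        linarith
      exact (h3.trans h6).trans (mul_le_mul_of_nonneg_left h5 (by linarith))
    have h5 : ‖f‖ ^ (2 * N) ≤ s ^ (2 * N) * Real.exp (-(N / (5000 * (Q:ℝ) ^ 3))) := by
      calc ‖f‖ ^ (2 * N) ≤ (s * Real.exp (-(η / (2 * Q)))) ^ (2 * N) :=
            pow_le_pow_left₀ (norm_nonneg _) h4 _
        _ = s ^ (2 * N) * Real.exp (-(N / (5000 * (Q:ℝ) ^ 3))) := by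
            rw [mul_pow, ← Real.exp_nat_mul, hη1]
            congr 2
            push_cast
            field_simp
    have h6 := kron_exp hQ
    rw [← hN] at h6
    have h7 : s ^ (2 * N) / (2 * ((N:ℝ) + 1) ^ Q) ≤
        s ^ (2 * N) * Real.exp (-(N / (5000 * (Q:ℝ) ^ 3))) := ht.trans h5
    rw [Real.exp_neg, ← div_eq_mul_inv] at h7
    have hspos : 0 < s ^ (2 * N) := by positivity
    have h8 : s ^ (2 * N) / Real.exp (N / (5000 * (Q:ℝ) ^ 3)) <
        s ^ (2 * N) / (2 * ((N:ℝ) + 1) ^ Q) :=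
      div_lt_div_of_pos_left hspos (by positivity) h6
    linarith

end PRF
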