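import Mathlib
import Pool.Agent.PRF.Kron3

/-!
# The Kronecker kill

Let `e` be an arbitrary function of `n` and for every value `x` of `e` let `h x` be a real valued function of the
primes. One finite colouring separates `a * b` from `a ^ b * b` for all `a, b` such that `a` exceeds a certain
iterated exponential of `b`, `e (a * b) = e (a ^ b * b) = x` and the completely additive function with values
`h x` at the primes takes at `b` a value at distance at least `1 / 10` from the integers.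
-/

namespace PRF

/-- the growth function -/
def GG (Q : ℕ) : ℕ := 2 ^ (2 ^ (2 ^ (Q + 7)))

theorem GG_mono {Q Q' : ℕ} (h : Q ≤ Q') : GG Q ≤ GG Q' := by
  unfold GG
  gcongr <;> norm_num

theorem GG_gt (Q : ℕ) : Q < GG Q := by
  have h1 : Q < 2 ^ (Q + 7) := lt_trans (by omega : Q < Q + 7) Nat.lt_two_pow_self
  have h2 : 2 ^ (Q + 7) < 2 ^ (2 ^ (Q + 7)) := Nat.lt_two_pow_self
  have h3 : 2 ^ (2 ^ (Q + 7)) < GG Q := Nat.lt_two_pow_self
  omega

theorem GG_succ (Q : ℕ) : GG Q ^ 4 ≤ GG (Q + 1) := by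
  unfold GG
  rw [← pow_mul]
  apply Nat.pow_le_pow_right (by norm_num)
  have h1 : (4:ℕ) = 2 ^ 2 := by norm_num
  rw [h1, ← pow_add]
  apply Nat.pow_le_pow_right (by norm_num)
  have h2 : 2 ^ (Q + 1 + 7) = 2 * 2 ^ (Q + 7) := by rw [show Q + 1 + 7 = Q + 7 + 1 by ring, pow_succ]; ring
  have h3 : 2 ≤ 2 ^ (Q + 7) := by
    calc 2 = 2 ^ 1 := by norm_num
      _ ≤ 2 ^ (Q + 7) := Nat.pow_le_pow_right (by norm_num) (by omega)
  omega

/-- the window of `n` -/
def Wd (n : ℕ) : ℕ := Nat.findGreatest (fun Q => GG Q ≤ Nat.log 2 n) n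

theorem le_Wd {n Q : ℕ} (h : GG Q ≤ Nat.log 2 n) : Q ≤ Wd n := by
  have h1 := GG_gt Q
  have h2 : Nat.log 2 n ≤ n := Nat.log_le_self 2 n
  exact Nat.le_findGreatest (P := fun Q => GG Q ≤ Nat.log 2 n) (by omega : Q ≤ n) h

theorem GG_Wd_le {n Q : ℕ} (h : GG Q ≤ Nat.log 2 n) : GG (Wd n) ≤ Nat.log 2 n := by
  unfold Wd
  have h1 := GG_gt Q
  have h2 : Nat.log 2 n ≤ n := Nat.log_le_self 2 n
  exact Nat.findGreatest_spec (P := fun Q => GG Q ≤ Nat.log 2 n) (by omega : Q ≤ n) h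

theorem lt_GG_Wd (n : ℕ) : Nat.log 2 n < GG (Wd n + 1) := by
  by_contra hcon
  push Not at hcon
  have := le_Wd hcon
  omega

theorem log_second {a b : ℕ} (_ha : 1 ≤ a) (hb : 2 ≤ b) :
    Nat.log 2 (a ^ b * b) < b * (Nat.log 2 (a * b) + 1) := by
  have hab : a * b ≠ 0 := by positivity
  apply Nat.log_lt_of_lt_pow (by positivity)
  have h1 : a * b < 2 ^ (Nat.log 2 (a * b) + 1) := Nat.lt_pow_succ_log_self (by norm_num) _
  calc a ^ b * b ≤ a ^ b * b ^ b := Nat.mul_le_mul_left _ (Nat.le_self_pow (by omega) b)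
    _ = (a * b) ^ b := by rw [mul_pow]
    _ < (2 ^ (Nat.log 2 (a * b) + 1)) ^ b := Nat.pow_lt_pow_left h1 (by omega)
    _ = 2 ^ (b * (Nat.log 2 (a * b) + 1)) := by rw [← pow_mul, mul_comm]

theorem log_le_second {a b : ℕ} (ha : 2 ≤ a) (hb : 2 ≤ b) :
    Nat.log 2 (a * b) ≤ Nat.log 2 (a ^ b * b) := by
  apply Nat.log_mono_right
  exact Nat.mul_le_mul_right _ (Nat.le_self_pow (by omega) a)

theorem Wd_second {a b : ℕ} (ha : 2 ≤ a) (hb : 2 ≤ b) (h : GG b ≤ Nat.log 2 a) :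
    Wd (a ^ b * b) = Wd (a * b) ∨ Wd (a ^ b * b) = Wd (a * b) + 1 := by
  have h0 : Nat.log 2 a ≤ Nat.log 2 (a * b) := Nat.log_mono_right (Nat.le_mul_of_pos_right _ (by omega))
  have h1 := GG_Wd_le (h.trans h0)
  have h2 := lt_GG_Wd (a * b)
  have h3 : Wd (a * b) ≤ Wd (a ^ b * b) := le_Wd (h1.trans (log_le_second ha hb))
  have h4 : Wd (a ^ b * b) < Wd (a * b) + 2 := by
    by_contra hcon
    push Not at hcon
    have h5 : GG (Wd (a * b) + 2) ≤ Nat.log 2 (a ^ b * b) :=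
      (GG_mono hcon).trans (GG_Wd_le ((h.trans h0).trans (log_le_second ha hb)))
    have h6 := GG_succ (Wd (a * b) + 1)
    have h7 := log_second (by omega : 1 ≤ a) hb
    have h8 : b ≤ GG (Wd (a * b) + 1) := by
      have h9 : b ≤ Wd (a * b) := le_Wd (h.trans h0)
      have := GG_gt (Wd (a * b) + 1)
      omega
    set g := GG (Wd (a * b) + 1) with hg
    have h9 : 1 < g := by
      have := GG_gt (Wd (a * b) + 1)
      omega
    have h10 : b * (Nat.log 2 (a * b) + 1) ≤ g * g := Nat.mul_le_mul h8 (by omega)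
    have h11 : g * g ≤ g ^ 4 := by
      calc g * g = g ^ 2 := by ring
        _ ≤ g ^ 4 := Nat.pow_le_pow_right (by omega) (by norm_num)
    rw [show Wd (a * b) + 1 + 1 = Wd (a * b) + 2 by ring] at h6
    omega
  omega

/-- the shift of `log log n` -/
theorem loglog_shift {a b : ℕ} (ha : 2 ≤ a) (hb : 2 ≤ b) (h : GG b ≤ Nat.log 2 a) :
    |Real.log (Real.log ((a ^ b * b : ℕ) : ℝ)) - Real.log (Real.log ((a * b : ℕ) : ℝ)) - Real.log b| ≤
      2 * Real.log b / Real.log ((a * b : ℕ) : ℝ) := by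
  have ha' : (2:ℝ) ≤ a := by exact_mod_cast ha
  have hb' : (2:ℝ) ≤ b := by exact_mod_cast hb
  have hla : 0 < Real.log a := Real.log_pos (by linarith)
  have hlb : 0 < Real.log b := Real.log_pos (by linarith)
  have h1 : Real.log ((a ^ b * b : ℕ) : ℝ) = b * Real.log a + Real.log b := by
    push_cast
    rw [Real.log_mul (by positivity) (by positivity), Real.log_pow]
  have h2 : Real.log ((a * b : ℕ) : ℝ) = Real.log a + Real.log b := by
    push_cast
    rw [Real.log_mul (by positivity) (by positivity)]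
  rw [h1, h2]
  set x := Real.log a + Real.log b with hx
  set y := b * Real.log a + Real.log b with hy
  have hx0 : 0 < x := by positivity
  have hy0 : 0 < y := by positivity
  -- log a ≥ 2 log b
  have h3 : 3 * Real.log b ≤ Real.log a := by
    have h4 : b ^ 3 ≤ a := by
      have h5 : 2 ^ (Nat.log 2 a) ≤ a := Nat.pow_log_le_self 2 (by omega)
      have h6 : b ≤ 2 ^ b := (Nat.lt_two_pow_self).le
      calc b ^ 3 ≤ (2 ^ b) ^ 3 := Nat.pow_le_pow_left h6 3
        _ = 2 ^ (3 * b) := by rw [← pow_mul, mul_comm]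
        _ ≤ 2 ^ (Nat.log 2 a) := by
            apply Nat.pow_le_pow_right (by norm_num)
            refine le_trans ?_ h
            have h7 : b + 7 < 2 ^ (b + 7) := Nat.lt_two_pow_self
            have h8 : 2 ^ (b + 7) < 2 ^ (2 ^ (b + 7)) := Nat.lt_two_pow_self
            have h9 : 2 ^ (2 ^ (b + 7)) < GG b := Nat.lt_two_pow_self
            have h10 : 2 ^ (b + 7) = 128 * 2 ^ b := by rw [pow_add]; ring
            have h11 : b < 2 ^ b := Nat.lt_two_pow_self
            omega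
        _ ≤ a := h5
    have h5 : Real.log ((b:ℝ) ^ 3) ≤ Real.log a :=
      Real.log_le_log (by positivity) (by exact_mod_cast h4)
    rw [Real.log_pow] at h5
    exact_mod_cast h5
  have h4 : Real.log y - Real.log x - Real.log b = Real.log (y / (x * b)) := by
    rw [Real.log_div hy0.ne' (by positivity), Real.log_mul hx0.ne' (by positivity)]
    ring
  rw [h4]
  have hxb : 0 < x * b := by positivity
  have h5 : y ≤ x * b := by
    rw [hx, hy]
    nlinarith
  have h6 : Real.log (y / (x * b)) ≤ 0 := Real.log_nonpos (by positivity) ((div_le_one hxb).mpr h5)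
  have h7 : 1 - (y / (x * b))⁻¹ ≤ Real.log (y / (x * b)) :=
    Real.one_sub_inv_le_log_of_pos (by positivity)
  rw [abs_of_nonpos h6]
  have h8 : (y / (x * b))⁻¹ - 1 ≤ 2 * Real.log b / x := by
    rw [inv_div, div_sub_one hy0.ne', div_le_div_iff₀ hy0 hx0]
    have h9 : x * b - y = (b - 1) * Real.log b := by rw [hx, hy]; ring
    rw [h9]
    have h10 : (b - 1) * x ≤ 2 * y := by
      rw [hx, hy]
      nlinarith
    nlinarith
  linarith

theorem sum_fact_le {b : ℕ} (hb : 1 ≤ b) :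
    (b.factorization.sum fun _ e => (e:ℝ)) ≤ 2 * b := by
  have h1 : (b.factorization.sum fun _ e => (e:ℝ)) * Real.log 2 ≤ Real.log b := by
    rw [Real.log_nat_eq_sum_factorization, Finsupp.sum, Finsupp.sum, Finset.sum_mul]
    apply Finset.sum_le_sum
    intro q hq
    rw [Nat.support_factorization] at hq
    have hq' := Nat.prime_of_mem_primeFactors hq
    apply mul_le_mul_of_nonneg_left _ (Nat.cast_nonneg _)
    exact Real.log_le_log (by norm_num) (by exact_mod_cast hq'.two_le)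
  have h2 : Real.log b ≤ b := by
    have hb' : (0:ℝ) < b := by exact_mod_cast hb
    have := Real.log_le_sub_one_of_pos hb'
    linarith
  have h3 : (1:ℝ) / 2 ≤ Real.log 2 := by
    have := Real.log_two_gt_d9
    linarith
  have h4 : 0 ≤ (b.factorization.sum fun _ e => (e:ℝ)) :=
    Finset.sum_nonneg fun _ _ => Nat.cast_nonneg _
  nlinarith

/-- the sum over the factorisation of `b` of near-integers is a near-integer -/
theorem near_int {b Q : ℕ} (hb : 1 ≤ b) (hbQ : b ≤ Q) {θ : ℝ} {c : ℕ → ℝ}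
    (hθ : ∀ q, q.Prime → q ≤ Q → ∃ m : ℤ, |θ * Real.log q - c q - m| ≤ 1 / (200 * Q)) :
    ∃ m : ℤ, |θ * Real.log b - chi c b - m| ≤ 1 / 100 := by
  classical
  have hQ : (0:ℝ) < Q := by exact_mod_cast (by omega : 0 < Q)
  have hex : ∀ q : ℕ, ∃ m : ℤ, q ∈ b.primeFactors → |θ * Real.log q - c q - m| ≤ 1 / (200 * Q) := by
    intro q
    by_cases hq : q ∈ b.primeFactors
    · obtain ⟨m, hm⟩ := hθ q (Nat.prime_of_mem_primeFactors hq)
        ((Nat.le_of_dvd (by omega) (Nat.dvd_of_mem_primeFactors hq)).trans hbQ)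
      exact ⟨m, fun _ => hm⟩
    · exact ⟨0, fun h => absurd h hq⟩
  choose m hm using hex
  refine ⟨∑ q ∈ b.primeFactors, (b.factorization q : ℤ) * m q, ?_⟩
  have h1 : θ * Real.log b - chi c b - ((∑ q ∈ b.primeFactors, (b.factorization q : ℤ) * m q : ℤ) : ℝ) =
      ∑ q ∈ b.primeFactors, (b.factorization q : ℝ) * (θ * Real.log q - c q - m q) := by
    rw [Real.log_nat_eq_sum_factorization]
    unfold chi
    rw [Finsupp.sum, Finsupp.sum, Nat.support_factorization, Finset.mul_sum]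
    push_cast
    rw [← Finset.sum_sub_distrib, ← Finset.sum_sub_distrib]
    apply Finset.sum_congr rfl
    intro q _
    ring
  rw [h1]
  calc |∑ q ∈ b.primeFactors, (b.factorization q : ℝ) * (θ * Real.log q - c q - m q)|
      ≤ ∑ q ∈ b.primeFactors, |(b.factorization q : ℝ) * (θ * Real.log q - c q - m q)| :=
        Finset.abs_sum_le_sum_abs _ _
    _ ≤ ∑ q ∈ b.primeFactors, (b.factorization q : ℝ) * (1 / (200 * Q)) := by
        apply Finset.sum_le_sum
        intro q hq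
        rw [abs_mul, abs_of_nonneg (Nat.cast_nonneg _)]
        exact mul_le_mul_of_nonneg_left (hm q hq) (Nat.cast_nonneg _)
    _ = (b.factorization.sum fun _ e => (e:ℝ)) * (1 / (200 * Q)) := by
        rw [Finsupp.sum, Nat.support_factorization, Finset.sum_mul]
    _ ≤ (2 * b) * (1 / (200 * Q)) := by
        apply mul_le_mul_of_nonneg_right (sum_fact_le hb) (by positivity)
    _ ≤ 1 / 100 := by
        have : (b:ℝ) ≤ Q := by exact_mod_cast hbQ
        rw [mul_one_div, div_le_div_iff₀ (by positivity) (by norm_num)]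
        nlinarith

theorem theta_small {Q : ℕ} (hQ : 2 ≤ Q) :
    600 * Q * 2 ^ (2 ^ (2 ^ (Q + 5))) ≤ GG Q := by
  have h1 : Q < 2 ^ Q := Nat.lt_two_pow_self
  have h2 : 600 * Q ≤ 2 ^ (Q + 10) := by
    rw [pow_add]
    omega
  calc 600 * Q * 2 ^ (2 ^ (2 ^ (Q + 5))) ≤ 2 ^ (Q + 10) * 2 ^ (2 ^ (2 ^ (Q + 5))) := by gcongr
    _ = 2 ^ (Q + 10 + 2 ^ (2 ^ (Q + 5))) := by rw [← pow_add]
    _ ≤ GG Q := by
      unfold GG
      apply Nat.pow_le_pow_right (by norm_num)
      have h3 : Q + 10 ≤ 2 ^ (Q + 5) := by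
        rw [pow_add]; omega
      have h4 : 2 ^ (Q + 5) < 2 ^ (2 ^ (Q + 5)) := Nat.lt_two_pow_self
      have h5 : 2 * 2 ^ (2 ^ (Q + 5)) ≤ 2 ^ (2 ^ (Q + 7)) := by
        rw [← pow_succ']
        apply Nat.pow_le_pow_right (by norm_num)
        rw [pow_add, pow_add]
        omega
      omega

/-- **The Kronecker kill.** -/
theorem kronecker_kill {E : Type*} (e : ℕ → E) (h : E → ℕ → ℝ) :
    ∃ c : ℕ → Fin 2 × Fin 16, ∀ a b : ℕ, 2 ≤ a → 2 ≤ b → GG b ≤ Nat.log 2 a →
      e (a * b) = e (a ^ b * b) → (∀ m : ℤ, 1 / 10 ≤ |chi (h (e (a * b))) b - m|) →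
      c (a * b) ≠ c (a ^ b * b) := by
  classical
  have hex : ∀ (Q : ℕ) (x : E), ∃ θ : ℝ, 1 ≤ Q → 0 ≤ θ ∧ θ ≤ (2:ℝ) ^ (2 ^ (2 ^ (Q + 5)) : ℕ) ∧
      ∀ q, q.Prime → q ≤ Q → ∃ m : ℤ, |θ * Real.log q - h x q - m| ≤ 1 / (200 * Q) := by
    intro Q x
    by_cases hQ : 1 ≤ Q
    · obtain ⟨θ, hθ⟩ := kronecker_log hQ (h x)
      exact ⟨θ, fun _ => hθ⟩
    · exact ⟨0, fun h => absurd h hQ⟩
  choose θ hθ using hex
  have hfl : ∀ x : ℝ, ⌊16 * Int.fract x⌋₊ < 16 := by
    intro x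
    rw [Nat.floor_lt (by have := Int.fract_nonneg x; positivity)]
    have := Int.fract_lt_one x
    push_cast
    linarith
  refine ⟨fun n => (⟨Wd n % 2, Nat.mod_lt _ (by norm_num)⟩,
    ⟨⌊16 * Int.fract (θ (Wd n) (e n) * Real.log (Real.log (n:ℝ)))⌋₊, hfl _⟩), ?_⟩
  intro a b ha hb hab he hfar hcol
  rw [Prod.mk.injEq, Fin.mk.injEq, Fin.mk.injEq] at hcol
  obtain ⟨hc1, hc2⟩ := hcol
  have h0 : Nat.log 2 a ≤ Nat.log 2 (a * b) := Nat.log_mono_right (Nat.le_mul_of_pos_right _ (by omega))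
  have hW : Wd (a ^ b * b) = Wd (a * b) := by
    rcases Wd_second ha hb hab with hw | hw
    · exact hw
    · rw [hw] at hc1; omega
  rw [hW, ← he] at hc2
  set Q := Wd (a * b) with hQ
  set x := e (a * b) with hx
  have hbQ : b ≤ Q := le_Wd (hab.trans h0)
  have hGQ : GG Q ≤ Nat.log 2 (a * b) := GG_Wd_le (hab.trans h0)
  obtain ⟨hθ0, hθ1, hθ2⟩ := hθ Q x (by omega)
  obtain ⟨m, hm⟩ := near_int (by omega) hbQ hθ2
  have hb' : (2:ℝ) ≤ b := by exact_mod_cast hb
  have hlb : 0 < Real.log b := Real.log_pos (by linarith)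
  have hlogb : Real.log b ≤ Q := by
    have h1 : Real.log b ≤ b - 1 := Real.log_le_sub_one_of_pos (by linarith)
    have h2 : (b:ℝ) ≤ Q := by exact_mod_cast hbQ
    linarith
  -- the size of log (a b)
  have hX : (GG Q : ℝ) / 2 ≤ Real.log ((a * b : ℕ) : ℝ) := by
    have h1 : 2 ^ (Nat.log 2 (a * b)) ≤ a * b := Nat.pow_log_le_self 2 (by positivity)
    have h2 : Real.log ((2:ℝ) ^ (Nat.log 2 (a * b))) ≤ Real.log ((a * b : ℕ) : ℝ) :=
      Real.log_le_log (by positivity) (by exact_mod_cast h1)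
    rw [Real.log_pow] at h2
    have h3 : (1:ℝ) / 2 ≤ Real.log 2 := by
      have := Real.log_two_gt_d9
      linarith
    have h4 : (GG Q : ℝ) ≤ (Nat.log 2 (a * b) : ℝ) := by exact_mod_cast hGQ
    have h5 : (0:ℝ) ≤ (Nat.log 2 (a * b) : ℝ) := Nat.cast_nonneg _
    nlinarith
  have hGpos : (0:ℝ) < GG Q := by exact_mod_cast (Nat.zero_le Q).trans_lt (GG_gt Q)
  have hX0 : 0 < Real.log ((a * b : ℕ) : ℝ) := by linarith
  have hshift := loglog_shift ha hb hab
  set l1 := Real.log (Real.log ((a * b : ℕ) : ℝ)) with hl1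
  set l2 := Real.log (Real.log ((a ^ b * b : ℕ) : ℝ)) with hl2
  have h1 : |θ Q x * (l2 - l1) - θ Q x * Real.log b| ≤ 1 / 100 := by
    rw [← mul_sub, abs_mul, abs_of_nonneg hθ0]
    have h2 : 2 * Real.log b / Real.log ((a * b : ℕ) : ℝ) ≤ 4 * Q / GG Q := by
      rw [div_le_div_iff₀ hX0 hGpos]
      nlinarith
    have h3 : (600 * Q * (2:ℝ) ^ (2 ^ (2 ^ (Q + 5)) : ℕ)) ≤ GG Q := by
      exact_mod_cast theta_small (by omega : 2 ≤ Q)
    have hQ0 : (0:ℝ) ≤ Q := Nat.cast_nonneg _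
    calc θ Q x * |l2 - l1 - Real.log b| ≤ (2:ℝ) ^ (2 ^ (2 ^ (Q + 5)) : ℕ) * (4 * Q / GG Q) := by
          apply mul_le_mul hθ1 (hshift.trans h2) (abs_nonneg _) (by positivity)
      _ ≤ 1 / 100 := by
          rw [← mul_div_assoc, div_le_div_iff₀ hGpos (by norm_num)]
          nlinarith
  -- the two fractional parts are close
  have h2 : |(θ Q x * l2 - θ Q x * l1) - ((⌊θ Q x * l2⌋ - ⌊θ Q x * l1⌋ : ℤ) : ℝ)| < 1 / 16 := by
    have h3 : (θ Q x * l2 - θ Q x * l1) - ((⌊θ Q x * l2⌋ - ⌊θ Q x * l1⌋ : ℤ) : ℝ) =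
        Int.fract (θ Q x * l2) - Int.fract (θ Q x * l1) := by
      rw [← Int.self_sub_floor, ← Int.self_sub_floor]
      push_cast
      ring
    rw [h3]
    have h4 := Nat.floor_le (by have := Int.fract_nonneg (θ Q x * l1); positivity :
      (0:ℝ) ≤ 16 * Int.fract (θ Q x * l1))
    have h5 := Nat.lt_floor_add_one (16 * Int.fract (θ Q x * l1))
    have h6 := Nat.floor_le (by have := Int.fract_nonneg (θ Q x * l2); positivity :
      (0:ℝ) ≤ 16 * Int.fract (θ Q x * l2))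
    have h7 := Nat.lt_floor_add_one (16 * Int.fract (θ Q x * l2))
    rw [hc2] at h4 h5
    rw [abs_lt]
    constructor <;> linarith
  have h3 := hfar ((⌊θ Q x * l2⌋ - ⌊θ Q x * l1⌋ : ℤ) - m)
  have h4 : |chi (h x) b - (((⌊θ Q x * l2⌋ - ⌊θ Q x * l1⌋ : ℤ) - m : ℤ) : ℝ)| < 1 / 10 := by
    rw [abs_lt]
    rw [abs_le] at h1 hm
    rw [abs_lt] at h2
    push_cast at h2 ⊢
    constructor <;> nlinarith
  linarith

end PRF
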