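import Mathlib

/-!
# MP_1b773e: the range of the two variables in a monochromatic pattern `a, b, ab, a ^ b, a ^ b * b`

For every `k` there is one finite colouring for which every monochromatic pattern satisfies
`b ^ k < log a`, and in which moreover `a` exceeds the `k`-fold iterated exponential of `b`, except possibly when
`b` has more than `k` distinct prime factors, all of them divide `a`, and `a` has a prime factor not dividing `b`.

The colour of `n` records: the largest `e` (up to a bound) for which `n` is an `e`-th power; the number of distinct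
prime factors (up to a bound); the iterated logarithm of `log n` modulo `3`; and the comparison of two quantities
with the first iterated logarithms of `n`: the largest `e` for which `n` is an `e`-th power, and the largest
`p`-part of the exponent of `p` in `n`.
-/

namespace PRF.TGap

/-- Iterated exponentials: `tower 0 n = n`, `tower (k + 1) n = 2 ^ tower k n`. -/
def tower : ℕ → ℕ → ℕ
  | 0, n => n
  | k + 1, n => 2 ^ tower k n

open Classical in
/-- the largest exponent `e` such that `n` is a perfect `e`-th power -/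
private noncomputable def g (n : ℕ) : ℕ := Nat.findGreatest (fun e => ∃ m, m ^ e = n) (Nat.log 2 n)

private theorem le_g {n e m : ℕ} (hn : 2 ≤ n) (h : m ^ e = n) : e ≤ g n := by
  classical
  unfold g
  apply Nat.le_findGreatest _ ⟨m, h⟩
  have hm : 2 ≤ m := by
    by_contra hcon
    have : m = 0 ∨ m = 1 := by omega
    rcases this with rfl | rfl
    · rcases Nat.eq_zero_or_pos e with rfl | he
      · simp at h; omega
      · rw [Nat.zero_pow he] at h; omega
    · rw [one_pow] at h; omega
  apply (Nat.le_log_iff_pow_le (by norm_num) (by omega)).mpr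
  rw [← h]
  exact Nat.pow_le_pow_left hm e

private theorem g_spec {n : ℕ} (hn : 2 ≤ n) : ∃ m, m ^ g n = n := by
  classical
  unfold g
  have h1 : 1 ≤ Nat.log 2 n := (Nat.le_log_iff_pow_le (by norm_num) (by omega)).mpr (by omega)
  exact Nat.findGreatest_spec (P := fun e => ∃ m, m ^ e = n) h1 ⟨n, pow_one n⟩

private theorem one_le_g {n : ℕ} (hn : 2 ≤ n) : 1 ≤ g n := le_g hn (pow_one n)

private theorem g_pow {a b : ℕ} (ha : 2 ≤ a) (hb : 2 ≤ b) : g a * b ≤ g (a ^ b) := by
  obtain ⟨m, hm⟩ := g_spec ha
  have h2 : 2 ≤ a ^ b := ha.trans (Nat.le_self_pow (by omega) a)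
  apply le_g h2 (m := m)
  rw [pow_mul, hm]

private theorem factorization_le_log {p b : ℕ} (hp : p.Prime) (hb : b ≠ 0) :
    b.factorization p ≤ Nat.log 2 b := by
  apply (Nat.le_log_iff_pow_le (by norm_num) hb).mpr
  calc 2 ^ b.factorization p ≤ p ^ b.factorization p := Nat.pow_le_pow_left hp.two_le _
    _ ≤ b := Nat.ordProj_le p hb

private theorem g_mul_le {a b p : ℕ} (ha : 2 ≤ a) (hb : 2 ≤ b) (hp : p.Prime) (hpb : p ∣ b)
    (hpa : ¬ p ∣ a) : g (a ^ b * b) ≤ Nat.log 2 b := by
  have h2 : 2 ≤ a ^ b * b := hb.trans (Nat.le_mul_of_pos_left _ (by positivity))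
  obtain ⟨m, hm⟩ := g_spec h2
  have h3 : (a ^ b * b).factorization p = b.factorization p := by
    rw [Nat.factorization_mul (by positivity) (by omega), Nat.factorization_pow]
    simp [Nat.factorization_eq_zero_of_not_dvd hpa]
  have h4 : g (a ^ b * b) * m.factorization p = b.factorization p := by
    rw [← h3]
    conv_rhs => rw [← hm]
    rw [Nat.factorization_pow]
    simp
  have h5 : 1 ≤ b.factorization p := (hp.dvd_iff_one_le_factorization (by omega)).mp hpb
  have h6 : g (a ^ b * b) ≤ b.factorization p := by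
    apply Nat.le_of_dvd (by omega)
    exact ⟨_, h4.symm⟩
  exact h6.trans (factorization_le_log hp (by omega))

/-- the largest `p`-part of the exponent of `p` in `n`, over the prime factors `p` of `n` -/
private def R (n : ℕ) : ℕ := n.primeFactors.sup fun p => p ^ (n.factorization p).factorization p

/-- the largest prime power in the factorisation of `n` -/
private def M (n : ℕ) : ℕ := n.primeFactors.sup fun p => p ^ n.factorization p

private theorem le_M {n p : ℕ} (hp : p ∈ n.primeFactors) : p ^ n.factorization p ≤ M n :=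
  Finset.le_sup (f := fun p => p ^ n.factorization p) hp

private theorem M_le {n : ℕ} (hn : n ≠ 0) : M n ≤ n :=
  Finset.sup_le fun p _ => Nat.ordProj_le p hn

private theorem le_M_pow {n : ℕ} (hn : n ≠ 0) : n ≤ M n ^ M n := by
  have h1 : n = ∏ p ∈ n.primeFactors, p ^ n.factorization p := by
    conv_lhs => rw [← Nat.prod_factorization_pow_eq_self hn]
    rfl
  have h2 : n.primeFactors ⊆ Finset.Icc 1 (M n) := by
    intro p hp
    have hp' := Nat.prime_of_mem_primeFactors hp
    rw [Finset.mem_Icc]
    refine ⟨hp'.pos, le_trans ?_ (le_M hp)⟩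
    apply Nat.le_self_pow
    exact (hp'.factorization_pos_of_dvd hn (Nat.dvd_of_mem_primeFactors hp)).ne'
  have h3 : n.primeFactors.card ≤ M n := by
    have := Finset.card_le_card h2
    simpa using this
  by_cases h0 : M n = 0
  · have h4 : n.primeFactors = ∅ := by
      rw [← Finset.card_eq_zero]
      omega
    rw [h4, Finset.prod_empty] at h1
    rw [h0, pow_zero]
    omega
  · calc n = ∏ p ∈ n.primeFactors, p ^ n.factorization p := h1
      _ ≤ ∏ p ∈ n.primeFactors, M n := Finset.prod_le_prod' fun p hp => le_M hp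
      _ = M n ^ n.primeFactors.card := by rw [Finset.prod_const]
      _ ≤ M n ^ M n := Nat.pow_le_pow_right (by omega) h3

private theorem R_pow {a b : ℕ} (ha : 2 ≤ a) (hb : 2 ≤ b) (hd : b.primeFactors ⊆ a.primeFactors) :
    M b ≤ R (a ^ b) := by
  unfold M
  apply Finset.sup_le
  intro p hp
  have hpa := hd hp
  have hp' := Nat.prime_of_mem_primeFactors hp
  have h1 : p ∈ (a ^ b).primeFactors := by
    rw [Nat.primeFactors_pow _ (by omega)]
    exact hpa
  refine le_trans ?_ (Finset.le_sup (f := fun p => p ^ ((a ^ b).factorization p).factorization p) h1)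
  rw [Nat.factorization_pow]
  have h2 : a.factorization p ≠ 0 :=
    (hp'.factorization_pos_of_dvd (by omega) (Nat.dvd_of_mem_primeFactors hpa)).ne'
  apply Nat.pow_le_pow_right hp'.pos
  rw [Finsupp.smul_apply, smul_eq_mul, Nat.factorization_mul (by omega) h2]
  simp

private theorem R_mul {a b : ℕ} (ha : 2 ≤ a) (hb : 2 ≤ b) (hall : a.primeFactors = b.primeFactors) :
    R (a ^ b * b) ≤ Nat.log 2 (M b) := by
  unfold R
  apply Finset.sup_le
  intro p hp
  rw [Nat.primeFactors_mul (by positivity) (by omega), Nat.primeFactors_pow _ (by omega), hall,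
    Finset.union_self] at hp
  have hp' := Nat.prime_of_mem_primeFactors hp
  have hpa : p ∈ a.primeFactors := by
    rw [hall]
    exact hp
  set β := b.factorization p with hβ
  have hβ1 : 1 ≤ β := hp'.factorization_pos_of_dvd (by omega) (Nat.dvd_of_mem_primeFactors hp)
  have h2 : a.factorization p ≠ 0 :=
    (hp'.factorization_pos_of_dvd (by omega) (Nat.dvd_of_mem_primeFactors hpa)).ne'
  rw [Nat.factorization_mul (by positivity) (by omega), Nat.factorization_pow]
  simp only [Finsupp.add_apply, Finsupp.smul_apply, smul_eq_mul]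
  rw [← hβ]
  have hlt : β.factorization p < β := Nat.factorization_lt p (by omega)
  have hdiv : p ^ β ∣ b * a.factorization p :=
    (Nat.ordProj_dvd b p).mul_right _
  have hval : (b * a.factorization p + β).factorization p = β.factorization p := by
    apply le_antisymm
    · by_contra hcon
      push Not at hcon
      have h3 : p ^ (β.factorization p + 1) ∣ b * a.factorization p + β :=
        (hp'.pow_dvd_iff_le_factorization (by omega)).mpr hcon
      have h4 : p ^ (β.factorization p + 1) ∣ b * a.factorization p :=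
        (pow_dvd_pow p (by omega)).trans hdiv
      have h5 : p ^ (β.factorization p + 1) ∣ β := (Nat.dvd_add_right h4).mp h3
      have h6 := (hp'.pow_dvd_iff_le_factorization (by omega)).mp h5
      omega
    · apply (hp'.pow_dvd_iff_le_factorization (by omega)).mp
      apply dvd_add
      · exact (pow_dvd_pow p (by omega)).trans hdiv
      · exact Nat.ordProj_dvd β p
  rw [hval]
  have h7 : 2 ^ β ≤ M b := (Nat.pow_le_pow_left hp'.two_le β).trans (le_M hp)
  exact (Nat.ordProj_le p (by omega)).trans
    ((Nat.le_log_iff_pow_le (by norm_num) (by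
      have : 0 < 2 ^ β := by positivity
      omega)).mpr h7)

/-- iterated binary logarithms -/
private def lg : ℕ → ℕ → ℕ
  | 0, n => n
  | k + 1, n => Nat.log 2 (lg k n)

private theorem lg_mono (j : ℕ) {m n : ℕ} (h : m ≤ n) : lg j m ≤ lg j n := by
  induction j with
  | zero => exact h
  | succ j ih => exact Nat.log_mono_right ih

private theorem tower_le_of_le_lg (j : ℕ) : ∀ {F n : ℕ}, 1 ≤ F → F ≤ lg j n → tower j F ≤ n := by
  induction j with
  | zero => intro F n _ h; exact h
  | succ j ih =>
    intro F n hF h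
    have h0 : lg j n ≠ 0 := by
      intro h0
      simp only [lg] at h
      rw [h0] at h
      simp at h
      omega
    have h1 : 2 ^ F ≤ lg j n := (Nat.le_log_iff_pow_le (by norm_num) h0).mp h
    have h2 := ih (F := 2 ^ F) (Nat.one_le_two_pow) h1
    have h3 : ∀ i F, tower (i + 1) F = tower i (2 ^ F) := by
      intro i
      induction i with
      | zero => intro F; rfl
      | succ i ihi => intro F; rw [tower, ihi, tower]
    rw [h3]
    exact h2

private theorem chain (f : ℕ → ℕ) (K : ℕ) {n₁ n₂ F : ℕ} (hle : n₁ ≤ n₂)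
    (hs : ∀ j < K, (lg j n₁ < f n₁ ↔ lg j n₂ < f n₂)) (h1 : F ≤ f n₁) (h2 : f n₂ ≤ Nat.log 2 F)
    (h3 : F ≤ lg 1 n₁) : ∀ j, j + 1 < K → F ≤ lg (j + 1) n₁ := by
  intro j
  induction j with
  | zero => intro _; exact h3
  | succ j ih =>
    intro hj
    have h4 := ih (by omega)
    have h5 : Nat.log 2 F ≤ lg (j + 2) n₁ := Nat.log_mono_right h4
    have h6 : ¬ lg (j + 2) n₂ < f n₂ := by
      have := lg_mono (j + 2) hle
      omega
    rw [← hs (j + 2) hj] at h6
    push Not at h6
    exact h1.trans h6

private theorem g_le_log (n : ℕ) : g n ≤ Nat.log 2 n := by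
  classical
  unfold g
  exact Nat.findGreatest_le _

private def lev (n : ℕ) : ℕ :=
  if h : n ≤ 1 then 0 else lev (Nat.log 2 n) + 1
termination_by n
decreasing_by exact Nat.log_lt_self 2 (by omega)

private theorem lev_mono : ∀ n m : ℕ, m ≤ n → lev m ≤ lev n := by
  intro n
  induction n using Nat.strong_induction_on with
  | _ n ih =>
    intro m hm
    by_cases h1 : m ≤ 1
    · rw [lev, dif_pos h1]
      exact Nat.zero_le _
    · have h2 : ¬ n ≤ 1 := by omega
      rw [lev, dif_neg h1, lev.eq_def n, dif_neg h2]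
      have := ih (Nat.log 2 n) (Nat.log_lt_self 2 (by omega)) (Nat.log 2 m) (Nat.log_mono_right hm)
      omega

private theorem lev_two_pow {n : ℕ} (hn : 1 ≤ n) : lev (2 ^ n) = lev n + 1 := by
  have h : ¬ 2 ^ n ≤ 1 := by
    have : 2 ≤ 2 ^ n := Nat.le_self_pow (by omega) 2
    omega
  rw [lev, dif_neg h, Nat.log_pow (by norm_num)]

private theorem sq_le_two_pow {n : ℕ} (hn : 4 ≤ n) : n * n ≤ 2 ^ n := by
  induction n, hn using Nat.le_induction with
  | base => norm_num
  | succ n hn ih =>
    rw [pow_succ]
    nlinarith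

private theorem log_pow_le {a b : ℕ} (ha : 2 ≤ a) (hb : 2 ≤ b) :
    b ≤ Nat.log 2 (a ^ b) ∧ Nat.log 2 (a ^ b) ≤ b * (Nat.log 2 a + 1) := by
  have h0 : a ^ b ≠ 0 := by positivity
  constructor
  · apply (Nat.le_log_iff_pow_le (by norm_num) h0).mpr
    exact Nat.pow_le_pow_left ha b
  · have h1 : a ^ b < 2 ^ (b * (Nat.log 2 a + 1)) := by
      rw [mul_comm, pow_mul]
      exact Nat.pow_lt_pow_left (Nat.lt_pow_succ_log_self (by norm_num) a) (by omega)
    have := (Nat.log_lt_iff_lt_pow (by norm_num) h0).mpr h1
    omega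

/-- `b` is small compared with `log a`. -/
private theorem size {a b k : ℕ} (ha : 2 ≤ a) (hb : 2 ≤ b) (hk : k + 4 ≤ Nat.log 2 b)
    (h : lev (Nat.log 2 b) % 3 = lev (Nat.log 2 (a ^ b)) % 3) : b ^ k < Nat.log 2 a := by
  by_contra hcon
  push Not at hcon
  obtain ⟨h1, h2⟩ := log_pow_le ha hb
  set y := Nat.log 2 b with hy
  have hb1 : 2 ^ y ≤ b := Nat.pow_log_le_self 2 (by omega)
  have hb2 : b < 2 ^ (y + 1) := Nat.lt_pow_succ_log_self (by norm_num) b
  have h3 : lev y + 1 ≤ lev (Nat.log 2 (a ^ b)) := by
    rw [← lev_two_pow (by omega)]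
    exact lev_mono _ _ (hb1.trans h1)
  have h4 : lev (Nat.log 2 (a ^ b)) ≤ lev y + 2 := by
    have h5 : Nat.log 2 (a ^ b) ≤ 2 ^ ((y + 1) * (k + 2)) := by
      calc Nat.log 2 (a ^ b) ≤ b * (Nat.log 2 a + 1) := h2
        _ ≤ b * (b ^ k + b ^ k) := by
            apply Nat.mul_le_mul_left
            have : 1 ≤ b ^ k := Nat.one_le_pow _ _ (by omega)
            omega
        _ = b ^ (k + 1) * 2 := by ring
        _ ≤ b ^ (k + 1) * b := Nat.mul_le_mul_left _ hb
        _ = b ^ (k + 2) := by ring
        _ ≤ (2 ^ (y + 1)) ^ (k + 2) := Nat.pow_le_pow_left hb2.le _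
        _ = 2 ^ ((y + 1) * (k + 2)) := by rw [← pow_mul]
    have h6 : (y + 1) * (k + 2) ≤ 2 ^ y := by
      refine le_trans ?_ (sq_le_two_pow (by omega))
      obtain ⟨z, hz⟩ : ∃ z, y = k + 4 + z := ⟨y - (k + 4), by omega⟩
      rw [hz]
      nlinarith
    calc lev (Nat.log 2 (a ^ b)) ≤ lev (2 ^ ((y + 1) * (k + 2))) := lev_mono _ _ h5
      _ = lev ((y + 1) * (k + 2)) + 1 := lev_two_pow (by nlinarith)
      _ ≤ lev (2 ^ y) + 1 := Nat.add_le_add_right (lev_mono _ _ h6) 1
      _ = lev y + 2 := by rw [lev_two_pow (by omega)]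
  omega

private theorem tower_mono (k : ℕ) {m n : ℕ} (h : m ≤ n) : tower k m ≤ tower k n := by
  induction k with
  | zero => exact h
  | succ k ih => exact Nat.pow_le_pow_right (by norm_num) ih

private theorem tower_add (i j n : ℕ) : tower (i + j) n = tower i (tower j n) := by
  induction i with
  | zero => simp [tower]
  | succ i ih =>
    rw [show i + 1 + j = (i + j) + 1 by ring, tower, ih, tower]

/-- the last step -/
private theorem finish {a b k F : ℕ} (ha : 4 ≤ a) (hba : b ≤ a)
    (h : F ≤ lg (k + 4) (a ^ b)) (hF : 1 ≤ F) : tower k F < a := by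
  by_contra hcon
  push Not at hcon
  have h1 := tower_le_of_le_lg (k + 4) hF h
  have h2 : a ^ b ≤ 2 ^ 2 ^ a := by
    calc a ^ b ≤ (2 ^ a) ^ a :=
          (Nat.pow_le_pow_left Nat.lt_two_pow_self.le b).trans
            (Nat.pow_le_pow_right (by positivity) hba)
      _ = 2 ^ (a * a) := by rw [← pow_mul]
      _ ≤ 2 ^ 2 ^ a := Nat.pow_le_pow_right (by norm_num) (sq_le_two_pow ha)
  have h3 : 2 ^ 2 ^ a ≤ tower (k + 2) F := by
    rw [show k + 2 = 2 + k by ring, tower_add]
    change tower 2 a ≤ _
    exact tower_mono 2 hcon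
  have h4 : tower (k + 2) F < tower (k + 4) F := by
    have h5 : tower (k + 4) F = 2 ^ 2 ^ tower (k + 2) F := rfl
    rw [h5]
    exact Nat.lt_two_pow_self.trans Nat.lt_two_pow_self
  omega

/-- the type of colours -/
private abbrev Col (k : ℕ) : Type :=
  Fin (k + 6) × Fin (k + 2) × Fin 3 × (Fin (k + 7) → Bool) × (Fin (k + 7) → Bool)

private noncomputable def col (k n : ℕ) : Col k :=
  (⟨min (g n) (k + 5), by omega⟩, ⟨min n.primeFactors.card (k + 1), by omega⟩,
    ⟨lev (Nat.log 2 n) % 3, by omega⟩,
    fun j => decide (lg j n < g n), fun j => decide (lg j n < R n))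

private theorem main (k a b : ℕ) (ha : 1 < a) (hb : 1 < b) (h1 : col k a = col k b)
    (h2 : col k a = col k (a * b)) (h3 : col k a = col k (a ^ b))
    (h4 : col k a = col k (a ^ b * b)) :
    b ^ k < Nat.log 2 a ∧
    (tower k b < a ∨ (k < b.primeFactors.card ∧ b.primeFactors ⊂ a.primeFactors)) := by
  have hg : ∀ {m n : ℕ}, col k m = col k n → min (g m) (k + 5) = min (g n) (k + 5) := by
    intro m n h
    exact congrArg (fun x : Col k => (x.1 : ℕ)) h
  have hw : ∀ {m n : ℕ}, col k m = col k n →
      min m.primeFactors.card (k + 1) = min n.primeFactors.card (k + 1) := by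
    intro m n h
    exact congrArg (fun x : Col k => (x.2.1 : ℕ)) h
  have hl : ∀ {m n : ℕ}, col k m = col k n → lev (Nat.log 2 m) % 3 = lev (Nat.log 2 n) % 3 := by
    intro m n h
    exact congrArg (fun x : Col k => (x.2.2.1 : ℕ)) h
  have hs1 : ∀ {m n : ℕ}, col k m = col k n → ∀ j < k + 7, (lg j m < g m ↔ lg j n < g n) := by
    intro m n h j hj
    have := congrArg (fun x : Col k => x.2.2.2.1 ⟨j, hj⟩) h
    simpa [col] using this
  have hs2 : ∀ {m n : ℕ}, col k m = col k n → ∀ j < k + 7, (lg j m < R m ↔ lg j n < R n) := by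
    intro m n h j hj
    have := congrArg (fun x : Col k => x.2.2.2.2 ⟨j, hj⟩) h
    simpa [col] using this
  have hga : k + 5 ≤ g a := by
    have e1 := hg h3
    have e2 := g_pow (show 2 ≤ a from ha) (show 2 ≤ b from hb)
    have e3 := one_le_g (show 2 ≤ a from ha)
    have e4 : 2 * g a ≤ g a * b := by nlinarith
    by_contra hcon
    push Not at hcon
    rw [min_eq_left hcon.le] at e1
    have : g a < min (g (a ^ b)) (k + 5) := lt_min (by omega) hcon
    omega
  have hmin : min (g a) (k + 5) = k + 5 := min_eq_right hga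
  have hgb : k + 5 ≤ g b := by
    have := hg h1
    rw [hmin] at this
    exact this.le.trans (min_le_left _ _)
  have hlb : k + 5 ≤ Nat.log 2 b := hgb.trans (g_le_log b)
  have hla : k + 5 ≤ Nat.log 2 a := hga.trans (g_le_log a)
  have hb32 : 2 ^ 5 ≤ b := by
    calc 2 ^ 5 ≤ 2 ^ (Nat.log 2 b) := Nat.pow_le_pow_right (by norm_num) (by omega)
      _ ≤ b := Nat.pow_log_le_self 2 (by omega)
  have ha4 : 4 ≤ a := by
    have := Nat.log_lt_self 2 (show a ≠ 0 by omega)
    omega
  have hsz1 := size (k := k + 1) ha hb hlb (hl (h1.symm.trans h3))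
  have hsz : b ^ k < Nat.log 2 a :=
    lt_of_le_of_lt (Nat.pow_le_pow_right (by omega) (by omega)) hsz1
  -- `b ≤ a`
  have hba : b ≤ a := by
    have e1 : b ≤ b ^ (k + 1) := Nat.le_self_pow (by omega) b
    have e2 := Nat.log_lt_self 2 (show a ≠ 0 by omega)
    omega
  refine ⟨hsz, ?_⟩
  by_cases hex : ∃ p : ℕ, p.Prime ∧ p ∣ b ∧ ¬ p ∣ a
  · left
    obtain ⟨p, hp, hpb', hpa⟩ := hex
    have e1 := chain g (k + 7) (n₁ := a ^ b) (n₂ := a ^ b * b) (F := b)
      (Nat.le_mul_of_pos_right _ (by omega)) (hs1 (h3.symm.trans h4))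
      (le_trans (by nlinarith [one_le_g (show 2 ≤ a from ha)]) (g_pow ha hb))
      (g_mul_le ha hb hp hpb' hpa) (log_pow_le ha hb).1 (k + 3) (by omega)
    exact finish ha4 hba e1 (by omega)
  · push Not at hex
    have hsub : b.primeFactors ⊆ a.primeFactors := by
      intro p hp
      have hp' := Nat.prime_of_mem_primeFactors hp
      rw [Nat.mem_primeFactors]
      exact ⟨hp', hex p hp' (Nat.dvd_of_mem_primeFactors hp), by omega⟩
    by_cases hrad : a.primeFactors ⊆ b.primeFactors
    · left
      have hM4 : 4 ≤ M b := by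
        by_contra hcon
        push Not at hcon
        have e1 := le_M_pow (n := b) (by omega)
        have e2 : M b ^ M b ≤ 27 := by
          interval_cases (M b) <;> norm_num
        omega
      have e1 := chain R (k + 7) (n₁ := a ^ b) (n₂ := a ^ b * b) (F := M b)
        (Nat.le_mul_of_pos_right _ (by omega)) (hs2 (h3.symm.trans h4))
        (R_pow ha hb hsub) (R_mul ha hb (Finset.Subset.antisymm hrad hsub))
        ((M_le (by omega)).trans (log_pow_le ha hb).1) (k + 5) (by omega)
      have e2 : tower (k + 2) (M b) < a := finish ha4 hba e1 (by omega)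
      refine lt_of_le_of_lt ?_ e2
      rw [tower_add]
      apply tower_mono
      change b ≤ 2 ^ 2 ^ M b
      calc b ≤ M b ^ M b := le_M_pow (by omega)
        _ ≤ (2 ^ M b) ^ M b := Nat.pow_le_pow_left Nat.lt_two_pow_self.le _
        _ = 2 ^ (M b * M b) := by rw [← pow_mul]
        _ ≤ 2 ^ 2 ^ M b := Nat.pow_le_pow_right (by norm_num) (sq_le_two_pow hM4)
    · right
      refine ⟨?_, hsub, hrad⟩
      by_contra hcon
      push Not at hcon
      apply hrad
      have e1 := hw (h1.symm.trans h2)
      have e2 : (a * b).primeFactors = a.primeFactors ∪ b.primeFactors :=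
        Nat.primeFactors_mul (by omega) (by omega)
      rw [e2] at e1
      have e3 : b.primeFactors ⊆ a.primeFactors ∪ b.primeFactors := Finset.subset_union_right
      have e4 : (a.primeFactors ∪ b.primeFactors).card ≤ b.primeFactors.card := by omega
      have e5 := Finset.eq_of_subset_of_card_le e3 e4
      rw [e5]
      exact Finset.subset_union_left

/-- For every `k` there is a finite colouring of which every monochromatic pattern `a, b, ab, a^b, a^b b` satisfies
`b ^ k < log a`, and `a` exceeds the `k`-fold iterated exponential of `b` unless `b` has more than `k` prime factors,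
all of which divide `a`, and `a` has a prime factor which does not divide `b`. -/
theorem tower_gap (k : ℕ) : ∃ (r : ℕ) (c : ℕ → Fin r), ∀ a b : ℕ, 1 < a → 1 < b →
    c a = c b → c a = c (a * b) → c a = c (a ^ b) → c a = c (a ^ b * b) →
    b ^ k < Nat.log 2 a ∧
    (tower k b < a ∨ (k < b.primeFactors.card ∧ b.primeFactors ⊂ a.primeFactors)) := by
  classical
  refine ⟨Fintype.card (Col k), fun n => Fintype.equivFin (Col k) (col k n), ?_⟩
  intro a b ha hb h1 h2 h3 h4
  exact main k a b ha hb ((Fintype.equivFin _).injective h1) ((Fintype.equivFin _).injective h2)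
    ((Fintype.equivFin _).injective h3) ((Fintype.equivFin _).injective h4)

end PRF.TGap
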