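import Mathlib
import Pool.Agent.PRF.TGap

/-!
# Every monochromatic pattern has `T_k (b) < a`
-/

namespace PRF.TGap

theorem tower_add' (k j n : ℕ) : tower (k + j) n = tower k (tower j n) := by
  induction k with
  | zero => rw [Nat.zero_add]; rfl
  | succ k ih => rw [Nat.succ_add, tower, ih]; rfl

theorem tower_mono' (k : ℕ) {m n : ℕ} (h : m ≤ n) : tower k m ≤ tower k n := by
  induction k with
  | zero => exact h
  | succ k ih => exact Nat.pow_le_pow_right (by norm_num) ih

theorem lt_tower_one (j : ℕ) : j < tower j 1 := by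
  induction j with
  | zero => exact Nat.one_pos
  | succ j ih =>
    have h1 : tower j 1 < 2 ^ tower j 1 := Nat.lt_two_pow_self
    change j + 1 < 2 ^ tower j 1
    omega

theorem exists_tower (n : ℕ) : ∃ j, n ≤ tower j 1 := ⟨n, (lt_tower_one n).le⟩

/-- least `j` such that `n` is at most a tower of `j` twos -/
noncomputable def lam (n : ℕ) : ℕ := by
  classical
  exact Nat.find (exists_tower n)

theorem le_tower_lam (n : ℕ) : n ≤ tower (lam n) 1 := by
  classical
  unfold lam
  exact Nat.find_spec (exists_tower n)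

theorem lam_le {n j : ℕ} (h : n ≤ tower j 1) : lam n ≤ j := by
  classical
  unfold lam
  exact Nat.find_min' (exists_tower n) h

theorem lam_lt {a b : ℕ} (h : b < Nat.log 2 a) : lam b < lam a := by
  by_contra hcon
  push Not at hcon
  have ha : a ≠ 0 := by
    rintro rfl
    simp at h
  have h1 : 2 ^ (b + 1) ≤ a := (Nat.le_log_iff_pow_le (by norm_num) ha).mp h
  have h2 := le_tower_lam a
  rcases Nat.eq_zero_or_pos (lam a) with h0 | h0
  · rw [h0] at h2
    change a ≤ 1 at h2
    have h3 : 2 ^ (b + 1) = 2 * 2 ^ b := by rw [pow_succ]; ring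
    have h4 : 0 < 2 ^ b := by positivity
    omega
  · obtain ⟨j, hj⟩ := Nat.exists_eq_succ_of_ne_zero h0.ne'
    have h3 : ¬ b ≤ tower j 1 := by
      intro h4
      have := lam_le h4
      omega
    push Not at h3
    rw [hj] at h2
    change a ≤ 2 ^ tower j 1 at h2
    have h4 : 2 ^ tower j 1 < 2 ^ (b + 1) := Nat.pow_lt_pow_right (by norm_num) (by omega)
    omega

theorem lam_le_add {a b k : ℕ} (h : a ≤ tower k b) : lam a ≤ lam b + k := by
  apply lam_le
  refine h.trans ?_
  rw [Nat.add_comm, tower_add']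
  exact tower_mono' k (le_tower_lam b)

theorem tower_all (k : ℕ) : ∃ (r : ℕ) (c : ℕ → Fin r), ∀ a b : ℕ, 1 < a → 1 < b →
    c a = c b → c a = c (a * b) → c a = c (a ^ b) → c a = c (a ^ b * b) → tower k b < a := by
  classical
  obtain ⟨r, c, hc⟩ := tower_gap 1
  refine ⟨Fintype.card (Fin r × Fin (k + 1)), fun n => Fintype.equivFin (Fin r × Fin (k + 1))
    (c n, ⟨lam n % (k + 1), Nat.mod_lt _ (Nat.succ_pos k)⟩), ?_⟩
  intro a b ha hb h1 h2 h3 h4
  have g1 := (Fintype.equivFin (Fin r × Fin (k + 1))).injective h1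
  have g2 := (Fintype.equivFin (Fin r × Fin (k + 1))).injective h2
  have g3 := (Fintype.equivFin (Fin r × Fin (k + 1))).injective h3
  have g4 := (Fintype.equivFin (Fin r × Fin (k + 1))).injective h4
  rw [Prod.mk.injEq] at g1 g2 g3 g4
  obtain ⟨h5, -⟩ := hc a b ha hb g1.1 g2.1 g3.1 g4.1
  rw [pow_one] at h5
  have h6 := lam_lt h5
  by_contra hcon
  push Not at hcon
  have h7 := lam_le_add hcon
  have h8 := g1.2
  rw [Fin.mk.injEq] at h8
  have h9 : lam b ≡ lam a [MOD k + 1] := h8.symm
  have h10 : k + 1 ∣ lam a - lam b := (Nat.modEq_iff_dvd' h6.le).mp h9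
  have h11 := Nat.le_of_dvd (by omega) h10
  omega

end PRF.TGap
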