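import Mathlib
import Pool.Agent.PRF.Kron4
import Pool.Agent.PRF.TGap2

/-!
# MP_1b773e: additive functions of `b` in a monochromatic pattern `a, b, ab, a ^ b, a ^ b * b`

`log log n` moves from `a * b` to `a ^ b * b` by `log b`, up to an error of `2 * log b / log a`. By Kronecker's
theorem (the numbers `log q` with `q` prime are linearly independent over the rationals; an explicit form is proved in
`Pool/Agent/PRF/Kron3.lean` by Bohr's mean value method) there is a real number `θ` for which `θ * log b` is modulo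
`1` as close as we like to a prescribed additive function of `b`, for all `b` up to a given size. So the colouring of
`n` by the position of `θ * log log n` modulo `1`, where `θ` depends on data which `a * b` and `a ^ b * b` have in
common, separates these two numbers unless the additive function nearly vanishes modulo `1` at `b`.
-/

namespace Pool.Agent.Results.MP_1b773e_co.CommonData

/-- the completely additive function with values `h q` at the primes `q`: `additive h n` is the sum of `v_q(n) * h q`
over the prime factors `q` of `n`, where `v_q(n)` is the exponent of `q` in `n` -/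
def additive (h : ℕ → ℝ) (n : ℕ) : ℝ := n.factorization.sum fun q v => (v : ℝ) * h q

private theorem additive_eq (h : ℕ → ℝ) (n : ℕ) : additive h n = PRF.chi h n := rfl

private theorem additive_mul (h : ℕ → ℝ) (t : ℝ) (n : ℕ) :
    additive (fun q => t * h q) n = t * additive h n := by
  unfold additive
  rw [Finsupp.sum, Finsupp.sum, Finset.mul_sum]
  apply Finset.sum_congr rfl
  intro q _
  ring

private theorem size {a b : ℕ} (hb : 2 ≤ b) (h : PRF.TGap.tower 6 b < a) : PRF.GG b ≤ Nat.log 2 a := by
  apply (Nat.le_log_iff_pow_le (by norm_num) (by omega)).mpr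
  refine le_trans ?_ h.le
  have h1 : b + 7 ≤ 2 ^ (2 ^ b) := by
    have h2 : b + 2 ≤ 2 ^ b := by
      obtain ⟨n, rfl⟩ := Nat.exists_eq_add_of_le hb
      have : n < 2 ^ n := Nat.lt_two_pow_self
      rw [pow_add]
      omega
    have h4 : 2 ^ (b + 2) ≤ 2 ^ (2 ^ b) := Nat.pow_le_pow_right (by norm_num) h2
    rw [pow_add] at h4
    omega
  unfold PRF.GG
  change 2 ^ 2 ^ 2 ^ 2 ^ (b + 7) ≤ 2 ^ 2 ^ 2 ^ 2 ^ 2 ^ 2 ^ b
  gcongr <;> norm_num

/-- doubling a real number whose distance to the integers is between `ε` and `1 / 10` -/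
private theorem doubling (j : ℕ) : ∀ y : ℝ, (∀ m : ℤ, 1 / 10 / 2 ^ j ≤ |y - m|) →
    ∃ i ≤ j, ∀ m : ℤ, 1 / 10 ≤ |2 ^ i * y - m| := by
  induction j with
  | zero =>
    intro y hy
    refine ⟨0, le_rfl, fun m => ?_⟩
    have := hy m
    simpa using this
  | succ j ih =>
    intro y hy
    by_cases h0 : ∀ m : ℤ, 1 / 10 ≤ |y - m|
    · exact ⟨0, Nat.zero_le _, fun m => by simpa using h0 m⟩
    · push Not at h0
      obtain ⟨m0, hm0⟩ := h0
      obtain ⟨i, hi, hi'⟩ := ih (2 * y) (by
        intro m
        have h1 := hy m0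
        have h2 : (1:ℝ) / 10 / 2 ^ j ≤ |2 * (y - m0)| := by
          rw [abs_mul, abs_of_pos (by norm_num : (0:ℝ) < 2)]
          have h3 : (1:ℝ) / 10 / 2 ^ (j + 1) = 1 / 10 / 2 ^ j / 2 := by
            rw [pow_succ]; field_simp
          rw [h3] at h1
          linarith
        have h2' : (1:ℝ) / 10 / 2 ^ j ≤ 1 / 10 := by
          apply div_le_self (by norm_num)
          exact one_le_pow₀ (by norm_num)
        have h4 : |2 * (y - m0)| < 1 / 5 := by
          rw [abs_mul, abs_of_pos (by norm_num : (0:ℝ) < 2)]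
          linarith
        rcases eq_or_ne m (2 * m0) with hm | hm
        · rw [hm]
          push_cast
          rwa [← mul_sub]
        · have h5 : (1:ℝ) ≤ |((m - 2 * m0 : ℤ) : ℝ)| := by
            have h6 : (1:ℤ) ≤ |m - 2 * m0| := Int.one_le_abs (sub_ne_zero.mpr hm)
            rw [← Int.cast_abs]
            exact_mod_cast h6
          have h7 : |((m - 2 * m0 : ℤ) : ℝ)| ≤ |2 * (y - m0)| + |2 * y - m| := by
            have h8 : ((m - 2 * m0 : ℤ) : ℝ) = 2 * (y - m0) - (2 * y - m) := by
              push_cast; ring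
            rw [h8]
            exact abs_sub _ _
          linarith)
      refine ⟨i + 1, by omega, fun m => ?_⟩
      have := hi' m
      rw [pow_succ, mul_assoc]
      exact this

/-- **Result.** For every `ε > 0` there is a number `r` such that for every function `e` on the positive integers
(with values in any type) and every family of additive functions `f_x` (one for every value `x` of `e`) there is a
colouring with `r` colours of which every monochromatic pattern with `e (ab) = e (a^b b) = x` is such that `f_x (b)`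
is at distance less than `ε` from an integer. -/
theorem result (ε : ℝ) (hε : 0 < ε) : ∃ r : ℕ, ∀ (E : Type) (e : ℕ → E) (h : E → ℕ → ℝ),
    ∃ c : ℕ → Fin r, ∀ a b : ℕ, 1 < a → 1 < b →
      c a = c b → c a = c (a * b) → c a = c (a ^ b) → c a = c (a ^ b * b) →
      e (a * b) = e (a ^ b * b) → ∃ m : ℤ, |additive (h (e (a * b))) b - m| < ε := by
  classical
  obtain ⟨j, hj⟩ : ∃ j : ℕ, (1:ℝ) / 10 / 2 ^ j ≤ ε := by
    obtain ⟨j, hj⟩ := exists_nat_gt (1 / 10 / ε)
    refine ⟨j, ?_⟩
    rw [div_le_iff₀ (by positivity)]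
    have h1 : (j:ℝ) ≤ 2 ^ j := by exact_mod_cast (Nat.lt_two_pow_self (n := j)).le
    rw [div_lt_iff₀ hε] at hj
    nlinarith
  obtain ⟨r, c1, hc1⟩ := PRF.TGap.tower_all 6
  refine ⟨Fintype.card (Fin r × (Fin (j + 1) → Fin 2 × Fin 16)), ?_⟩
  intro E e h
  have hex : ∀ i : Fin (j + 1), ∃ c : ℕ → Fin 2 × Fin 16, ∀ a b : ℕ, 2 ≤ a → 2 ≤ b →
      PRF.GG b ≤ Nat.log 2 a → e (a * b) = e (a ^ b * b) →
      (∀ m : ℤ, 1 / 10 ≤ |PRF.chi (fun q => 2 ^ (i:ℕ) * h (e (a * b)) q) b - m|) →
      c (a * b) ≠ c (a ^ b * b) := fun i =>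
    PRF.kronecker_kill e (fun x q => 2 ^ (i:ℕ) * h x q)
  choose c2 hc2 using hex
  refine ⟨fun n => Fintype.equivFin (Fin r × (Fin (j + 1) → Fin 2 × Fin 16))
    (c1 n, fun i => c2 i n), ?_⟩
  intro a b ha hb h1 h2 h3 h4 he
  have g1 := (Fintype.equivFin _).injective h1
  have g2 := (Fintype.equivFin _).injective h2
  have g3 := (Fintype.equivFin _).injective h3
  have g4 := (Fintype.equivFin _).injective h4
  rw [Prod.mk.injEq] at g1 g2 g3 g4
  have hsize := hc1 a b ha hb g1.1 g2.1 g3.1 g4.1
  by_contra hcon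
  push Not at hcon
  obtain ⟨i, hi, hfar⟩ := doubling j (additive (h (e (a * b))) b) (fun m => hj.trans (hcon m))
  have hne := hc2 ⟨i, by omega⟩ a b ha hb (size hb hsize) he (by
    intro m
    have := hfar m
    rw [← additive_mul] at this
    exact this)
  apply hne
  have h5 := congrFun g2.2 ⟨i, by omega⟩
  have h6 := congrFun g4.2 ⟨i, by omega⟩
  exact h5.symm.trans h6

end Pool.Agent.Results.MP_1b773e_co.CommonData
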