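import Pool.Agent.PRF.Forest

/-!
# The induction: separation of labels, evenness of closed walks, and the two-colouring
-/

namespace PRF

theorem sub_one_pow {p d : ℕ} (hp : 2 ≤ p) : d + 1 ≤ p ^ d := by
  have : d < p ^ d := Nat.lt_pow_self hp
  omega

/-- `n - log n` separates numbers `m < n` with `m ≤ p ^ (j + 1) - a`, `n ≥ p ^ k + b`, `a + b ≥ 2` -/
theorem sep_aux {p j k Y1 Y2 a b : ℕ} (hp : 2 ≤ p) (hjk : j < k) (h1 : Y1 + a ≤ p ^ (j + 1))
    (h2 : p ^ k + b ≤ Y2) (hab : 2 ≤ a + b) : Y1 + k < Y2 + j := by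
  have h3 : p ^ k = p ^ (j + 1) * p ^ (k - j - 1) := by rw [← pow_add]; congr 1; omega
  have h4 := sub_one_pow (d := k - j - 1) hp
  have h5 := Nat.mul_le_mul_left (p ^ (j + 1)) h4
  have h6 : 1 ≤ p ^ (j + 1) := Nat.pow_pos (by omega)
  have h7 := Nat.mul_le_mul_right (k - j - 1) h6
  rw [mul_add, mul_one] at h5
  omega

theorem inj_aux {p Y1 Y2 : ℕ} (hp : 2 ≤ p) (h1 : 0 < Y1) (hlt : Y1 < Y2)
    (h : (0 < tz p Y1) ∨ tz p Y1 = tz p Y2) :
    Y1 + Nat.log p Y2 < Y2 + Nat.log p Y1 := by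
  have h2 : 0 < Y2 := by omega
  set j := Nat.log p Y1 with hj
  set k := Nat.log p Y2 with hk
  rcases le_or_gt k j with hjk | hjk
  · omega
  have h3 : Y1 < p ^ (j + 1) := Nat.lt_pow_succ_log_self (by omega) Y1
  have h4 : p ^ k ≤ Y2 := Nat.pow_log_le_self p h2.ne'
  have h5 := pow_tz_dvd hp h1
  have h6 := tz_le_log hp h1
  have h7 : Y1 + p ^ tz p Y1 ≤ p ^ (j + 1) := by
    have h8 : p ^ tz p Y1 ∣ p ^ (j + 1) := pow_dvd_pow p (by omega)
    obtain ⟨c, hc⟩ := h5
    obtain ⟨d, hd⟩ := h8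
    have h9 : c < d := by
      by_contra hcon
      push Not at hcon
      have := Nat.mul_le_mul_left (p ^ tz p Y1) hcon
      omega
    have h10 := Nat.mul_le_mul_left (p ^ tz p Y1) (show c + 1 ≤ d from h9)
    rw [mul_add, mul_one] at h10
    omega
  rcases h with h | h
  · refine sep_aux (a := p ^ tz p Y1) (b := 0) hp hjk h7 (by omega) ?_
    have := sub_one_pow (d := tz p Y1) hp
    omega
  · have h8 : p ^ tz p Y2 ∣ Y2 := pow_tz_dvd hp h2
    have h9 : Y2 ≠ p ^ k := by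
      intro h9
      have h10 : k ≤ tz p Y2 := (pow_dvd_iff hp h2).mp (by rw [← h9])
      omega
    have h10 : p ^ tz p Y1 ∣ Y2 - p ^ k := by
      apply Nat.dvd_sub
      · rw [h]; exact h8
      · exact pow_dvd_pow p (by omega)
    have h11 := Nat.le_of_dvd (by omega) h10
    have h12 : 1 ≤ p ^ tz p Y1 := Nat.pow_pos (by omega)
    exact sep_aux (a := p ^ tz p Y1) (b := p ^ tz p Y1) hp hjk h7 (by omega) (by omega)

/-- the condition on `r` used for the labels -/
def Good (p : ℕ) (r : ℕ → ℕ → Prop) : Prop :=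
  ∀ u Y1 Y2, r u (tz p Y1) → r u (tz p Y2) → (0 < tz p Y1 ∧ 0 < tz p Y2) ∨ tz p Y1 = tz p Y2

theorem inj {p : ℕ} {r : ℕ → ℕ → Prop} (hp : 2 ≤ p) (hr : Good p r) {u Y1 Y2 : ℕ} (h1 : 0 < Y1)
    (h2 : 0 < Y2) (hr1 : r u (tz p Y1)) (hr2 : r u (tz p Y2))
    (h : Y1 + Nat.log p Y2 = Y2 + Nat.log p Y1) : Y1 = Y2 := by
  have h3 := hr u Y1 Y2 hr1 hr2
  rcases lt_trichotomy Y1 Y2 with hlt | heq | hgt
  · have := inj_aux hp h1 hlt (by tauto)
    omega
  · exact heq
  · have := inj_aux hp h2 hgt (by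
      rcases h3 with h3 | h3
      · exact Or.inl h3.2
      · exact Or.inr h3.symm)
    omega

theorem good_lt (p : ℕ) : Good p (fun a b => a < b) := by
  intro u Y1 Y2 h1 h2
  left
  omega

theorem good_eq (p : ℕ) : Good p (fun a b => a = b) := by
  intro u Y1 Y2 h1 h2
  right
  omega

/-- decomposition of a walk into the data of `state` at both ends -/
theorem split {p : ℕ} {r : ℕ → ℕ → Prop} {M : ℕ} (hp : 2 ≤ p) (hS : Sep p r M) (hE : Evn p r M)
    {a b l : ℕ} (h : Wk (Ed p r) (Bd (M + 1)) a b l) :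
    ∃ C u l1 l2, 0 < C ∧ ¬ p ∣ C ∧ St p r C u M a l1 ∧ St p r C u M b l2 ∧ l = l1 + l2 := by
  obtain ⟨c, l1, l2, h1, h2, hl⟩ := h.exists_min (len p)
  have hc : 0 < c := h1.left.1.1
  obtain ⟨C, hC⟩ := pow_tz_dvd hp hc
  have hC0 : 0 < C := by
    rcases Nat.eq_zero_or_pos C with h0 | h0
    · rw [h0, mul_zero] at hC; omega
    · exact h0
  have hpC : ¬ p ∣ C := by
    intro hd
    obtain ⟨D, hD⟩ := hd
    have h3 : p ^ (tz p c + 1) ∣ c := by
      refine ⟨D, ?_⟩
      conv_lhs => rw [hC, hD]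
      rw [pow_succ, mul_assoc]
    have := (pow_dvd_iff hp hc).mp h3
    omega
  have hlen : len p c = Nat.log p C := by
    have h3 : Nat.log p c = tz p c + Nat.log p C := by
      have := log_add (t := 0) (e := tz p c) hp hC0 (Nat.pow_pos (by omega))
      rwa [zero_add, ← hC] at this
    unfold len
    omega
  have h4 : Wk (Ed p r) (fun n => Bd (M + 1) n ∧ Nat.log p C ≤ len p n) (p ^ tz p c * C) a l1 := by
    rw [← hC, ← hlen]; exact h1
  have h5 : Wk (Ed p r) (fun n => Bd (M + 1) n ∧ Nat.log p C ≤ len p n) (p ^ tz p c * C) b l2 := by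
    rw [← hC, ← hlen]; exact h2
  exact ⟨C, tz p c, l1, l2, hC0, hpC, state hp hC0 hpC hS hE h4, state hp hC0 hpC hS hE h5, hl⟩

theorem evn_step {p : ℕ} {r : ℕ → ℕ → Prop} {M : ℕ} (hp : 2 ≤ p) (hr : Good p r)
    (hS : Sep p r M) (hE : Evn p r M) : Evn p r (M + 1) := by
  intro n l h
  obtain ⟨C, u, l1, l2, hC, hpC, h1, h2, hl⟩ := split hp hS hE h
  have hz : ∀ {t e : ℕ}, 0 < t → t < p ^ e → t + p ^ e * C ≠ p ^ u * C := by
    intro t e ht hte heq
    have h3 : Nat.log p (t + p ^ e * C) = e + Nat.log p C := log_add hp hC hte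
    have h4 : Nat.log p (p ^ u * C) = u + Nat.log p C := by
      have := log_add (t := 0) (e := u) hp hC (Nat.pow_pos (by omega))
      rwa [zero_add] at this
    rw [heq, h4] at h3
    have : e = u := by omega
    subst this
    omega
  rcases h1 with ⟨h1, hl1⟩ | ⟨t, e, Y, l', ht, hte, hb, hY, hr1, hw, hl1, he⟩
  · rcases h2 with ⟨h2, hl2⟩ | ⟨t', e', Y', l'', ht', hte', hb', hY', hr1', hw', hl1', he'⟩
    · rw [hl]; exact hl1.add hl2
    · exact absurd (hb'.symm.trans h1) (hz ht' hte')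
  · rcases h2 with ⟨h2, hl2⟩ | ⟨t', e', Y', l'', ht', hte', hb', hY', hr1', hw', hl1', he'⟩
    · exact absurd (hb.symm.trans h2) (hz ht hte)
    · have h3 : Nat.log p n = e + Nat.log p C := by rw [hb]; exact log_add hp hC hte
      have h4 : Nat.log p n = e' + Nat.log p C := by rw [hb']; exact log_add hp hC hte'
      have h5 : e = e' := by omega
      subst h5
      have h6 : t = t' := by omega
      subst h6
      have h7 : Y = Y' := inj hp hr hY hY' hr1 hr1' (by omega)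
      subst h7
      have h8 := hE Y _ (hw.trans hw'.symm)
      obtain ⟨k1, hk1⟩ := hl1
      obtain ⟨k2, hk2⟩ := hl1'
      obtain ⟨k3, hk3⟩ := h8
      exact ⟨k1 + k2 - k3 - 1, by omega⟩

theorem log_close {p t1 t2 a1 a2 : ℕ} (hp : 2 ≤ p) (h1 : 0 < t1) (h2 : 0 < t2)
    (ha2 : a2 < tz p t2) (h : t1 + a1 = t2 + a2) (hle : t2 ≤ t1) : Nat.log p t1 = Nat.log p t2 := by
  have h5 := pow_tz_dvd hp h2
  have h6 := tz_le_log hp h2
  have h3 : t2 < p ^ (Nat.log p t2 + 1) := Nat.lt_pow_succ_log_self (by omega) t2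
  have h7 : t2 + p ^ tz p t2 ≤ p ^ (Nat.log p t2 + 1) := by
    have h8 : p ^ tz p t2 ∣ p ^ (Nat.log p t2 + 1) := pow_dvd_pow p (by omega)
    obtain ⟨c, hc⟩ := h5
    obtain ⟨d, hd⟩ := h8
    have h9 : c < d := by
      by_contra hcon
      push Not at hcon
      have := Nat.mul_le_mul_left (p ^ tz p t2) hcon
      omega
    have h10 := Nat.mul_le_mul_left (p ^ tz p t2) (show c + 1 ≤ d from h9)
    rw [mul_add, mul_one] at h10
    omega
  have h8 := sub_one_pow (d := tz p t2) hp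
  apply le_antisymm
  · have : t1 < p ^ (Nat.log p t2 + 1) := by omega
    exact Nat.lt_succ_iff.mp (Nat.log_lt_of_lt_pow (by omega) this)
  · exact Nat.log_mono_right hle

theorem sep_step {p M : ℕ} (hp : 2 ≤ p) (hS : Sep p (fun a b => a < b) M)
    (hE : Evn p (fun a b => a < b) M) : Sep p (fun a b => a < b) (M + 1) := by
  intro n1 n2 l a1 a2 h ha1 ha2 heq
  obtain ⟨C, u, l1, l2, hC, hpC, h1, h2, hl⟩ := split hp hS hE h
  have hlz : Nat.log p (p ^ u * C) = u + Nat.log p C := by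
    have := log_add (t := 0) (e := u) hp hC (Nat.pow_pos (by omega))
    rwa [zero_add] at this
  -- the mixed case
  have hmix : ∀ {t e Y a a' : ℕ}, 0 < t → t < p ^ e → 0 < Y → e + Nat.log p Y = Nat.log p t + Y + u →
      a < u → p ^ u * C + e + a ≠ t + p ^ e * C + u + a' := by
    intro t e Y a a' ht hte hY he ha heq
    have h3 := log_lt_self hp hY
    have h4 : u < e := by omega
    have h5 : p ^ e = p ^ u * p ^ (e - u) := by rw [← pow_add]; congr 1; omega
    have h6 := sub_one_pow (d := e - u) hp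
    have h7 := sub_one_pow (d := u) hp
    have h8 : p ^ u * (e - u + 1) ≤ p ^ e := by rw [h5]; exact Nat.mul_le_mul_left _ h6
    have h9 : (u + 1) * (e - u) ≤ p ^ u * (e - u) := Nat.mul_le_mul_right _ h7
    have h10 : u * 1 ≤ u * (e - u) := Nat.mul_le_mul_left _ (by omega)
    have h11 : e + p ^ u ≤ p ^ e := by
      rw [mul_add, mul_one] at h8
      rw [add_mul, one_mul] at h9
      omega
    have h12 : (p ^ u + e) * C ≤ p ^ e * C := Nat.mul_le_mul_right C (by omega)
    have h13 : e * 1 ≤ e * C := Nat.mul_le_mul_left e hC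
    rw [add_mul] at h12
    omega
  have hbig : ∀ {t1 t2 e1 e2 a1 a2 : ℕ}, 0 < t1 → 0 < t2 → t2 < p ^ e2 → e2 < e1 →
      a2 < tz p t2 → t1 + p ^ e1 * C + e2 + a1 ≠ t2 + p ^ e2 * C + e1 + a2 := by
    intro t1 t2 e1 e2 a1 a2 ht1 ht2 hte2 he ha heq
    have h5 : t2 + p ^ tz p t2 ≤ p ^ e2 := by
      have h5 := pow_tz_dvd hp ht2
      have h8 : p ^ tz p t2 ∣ p ^ e2 := by
        apply pow_dvd_pow
        have h9 := tz_le_log hp ht2
        have h10 : Nat.log p t2 < e2 := Nat.log_lt_of_lt_pow (by omega) hte2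
        omega
      obtain ⟨c, hc⟩ := h5
      obtain ⟨d, hd⟩ := h8
      have h9 : c < d := by
        by_contra hcon
        push Not at hcon
        have := Nat.mul_le_mul_left (p ^ tz p t2) hcon
        omega
      have h10 := Nat.mul_le_mul_left (p ^ tz p t2) (show c + 1 ≤ d from h9)
      rw [mul_add, mul_one] at h10
      omega
    have h6 := sub_one_pow (d := tz p t2) hp
    have h7 : p ^ e1 = p ^ e2 * p ^ (e1 - e2) := by rw [← pow_add]; congr 1; omega
    -- `p ^ e1 ≥ 2 * p ^ e2 + (e1 - e2 - 1)`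
    have h8 : 2 * p ^ e2 + (e1 - e2 - 1) ≤ p ^ e1 := by
      have h9 := sub_one_pow (d := e1 - e2 - 1) hp
      have h10 : p ^ (e1 - e2) = p ^ (e1 - e2 - 1) * p := by rw [← pow_succ]; congr 1; omega
      have h11 : (e1 - e2 - 1 + 1) * 2 ≤ p ^ (e1 - e2) := by
        rw [h10]; exact Nat.mul_le_mul h9 hp
      have h12 := Nat.mul_le_mul_left (p ^ e2) h11
      rw [← h7] at h12
      have h13 : 1 * (e1 - e2 - 1) ≤ p ^ e2 * (e1 - e2 - 1) :=
        Nat.mul_le_mul_right _ (Nat.pow_pos (by omega))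
      have h14 : p ^ e2 * ((e1 - e2 - 1 + 1) * 2) =
        2 * (p ^ e2 * (e1 - e2 - 1)) + 2 * p ^ e2 := by ring
      omega
    have h9 : (2 * p ^ e2 + (e1 - e2 - 1)) * C ≤ p ^ e1 * C := Nat.mul_le_mul_right C h8
    have h10 : (p ^ e2 + (e1 - e2 - 1)) * 1 ≤ (p ^ e2 + (e1 - e2 - 1)) * C :=
      Nat.mul_le_mul_left _ hC
    have h11 : (2 * p ^ e2 + (e1 - e2 - 1)) * C = p ^ e2 * C + (p ^ e2 + (e1 - e2 - 1)) * C := by
      ring
    omega
  rcases h1 with ⟨h1, hl1⟩ | ⟨t1, e1, Y1, l1', ht1, hte1, hb1, hY1, hr1, hw1, hl1, he1⟩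
  · rcases h2 with ⟨h2, hl2⟩ | ⟨t2, e2, Y2, l2', ht2, hte2, hb2, hY2, hr2, hw2, hl2, he2⟩
    · rw [h1, h2]
    · exfalso
      have h3 : Nat.log p n2 = e2 + Nat.log p C := by rw [hb2]; exact log_add hp hC hte2
      have h4 : tz p n1 = u := by rw [h1]; exact tz_pow_mul hp hC hpC
      rw [h3, h1, hlz, hb2] at heq
      exact hmix ht2 hte2 hY2 he2 (by omega) (a := a1) (a' := a2) (by omega)
  · have h3 : Nat.log p n1 = e1 + Nat.log p C := by rw [hb1]; exact log_add hp hC hte1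
    have h5 : tz p n1 = tz p t1 := by rw [hb1]; exact tz_add hp ht1 hte1
    rcases h2 with ⟨h2, hl2⟩ | ⟨t2, e2, Y2, l2', ht2, hte2, hb2, hY2, hr2, hw2, hl2, he2⟩
    · exfalso
      have h4 : tz p n2 = u := by rw [h2]; exact tz_pow_mul hp hC hpC
      rw [h3, h2, hlz, hb1] at heq
      exact hmix ht1 hte1 hY1 he1 (by omega) (a := a2) (a' := a1) (by omega)
    · have h4 : Nat.log p n2 = e2 + Nat.log p C := by rw [hb2]; exact log_add hp hC hte2
      have h6 : tz p n2 = tz p t2 := by rw [hb2]; exact tz_add hp ht2 hte2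
      rw [h3, h4] at heq
      rcases lt_trichotomy e1 e2 with hlt | he | hgt
      · exfalso
        rw [hb1, hb2] at heq
        exact hbig ht2 ht1 hte1 hlt (by omega) (a1 := a2) (a2 := a1) (by omega)
      · subst he
        have h7 : t1 + a1 = t2 + a2 := by rw [hb1, hb2] at heq; omega
        have h8 : Nat.log p t1 = Nat.log p t2 := by
          rcases le_total t2 t1 with hle | hle
          · exact log_close hp ht1 ht2 (by omega) h7 hle
          · exact (log_close hp ht2 ht1 (by omega) h7.symm hle).symm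
        have h9 : Y1 = Y2 := inj hp (good_lt p) hY1 hY2 hr1 hr2 (by omega)
        subst h9
        have h10 := hS t1 t2 _ a1 a2 (hw1.symm.trans hw2) (by omega) (by omega) (by omega)
        rw [hb1, hb2, h10]
      · exfalso
        rw [hb1, hb2] at heq
        exact hbig ht1 ht2 hte2 hgt (by omega) (a1 := a1) (a2 := a2) (by omega)

theorem wk_tz {p M : ℕ} (hp : 2 ≤ p) {a b l : ℕ}
    (h : Wk (Ed p (fun a b => a = b)) (Bd M) a b l) : tz p a = tz p b := by
  have key : ∀ {x n : ℕ}, Ed p (fun a b => a = b) x n → tz p x = tz p n := by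
    rintro x n ⟨y, hx, hy, hn, hxy⟩
    rw [hn, tz_add hp hy (Nat.lt_pow_self hp), hxy]
  induction h with
  | refl h => rfl
  | step b c l h h1 h2 ih =>
    rcases h1 with h1 | h1
    · rw [ih, key h1]
    · rw [ih, key h1]

theorem sep_eq {p M : ℕ} (hp : 2 ≤ p) : Sep p (fun a b => a = b) M := by
  intro n1 n2 l a1 a2 h ha1 ha2 heq
  have h1 := wk_tz hp h
  have h2 := h.left.1
  have h3 := h.right.1
  exact inj hp (good_eq p) h2 h3 (u := tz p n1) rfl h1 (by omega)

theorem main_lt {p : ℕ} (hp : 2 ≤ p) (M : ℕ) :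
    Sep p (fun a b => a < b) M ∧ Evn p (fun a b => a < b) M := by
  induction M with
  | zero =>
    constructor
    · intro n1 n2 l a1 a2 h
      have := h.left.2
      omega
    · intro n l h
      have := h.left.2
      omega
  | succ M ih => exact ⟨sep_step hp ih.1 ih.2, evn_step hp (good_lt p) ih.1 ih.2⟩

theorem main_eq {p : ℕ} (hp : 2 ≤ p) (M : ℕ) : Evn p (fun a b => a = b) M := by
  induction M with
  | zero =>
    intro n l h
    have := h.left.2
    omega
  | succ M ih => exact evn_step hp (good_eq p) (sep_eq hp) ih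

theorem wk_of_walk {G : SimpleGraph ℕ} {R : ℕ → ℕ → Prop} (hG : ∀ a b, G.Adj a b → R a b ∨ R b a)
    (hR : ∀ a b, R a b → 0 < a ∧ 0 < b) {a b : ℕ} (w : G.Walk a b) (ha : 0 < a) :
    ∃ M, Wk R (Bd M) a b w.length := by
  induction w with
  | nil => exact ⟨_, Wk.refl ⟨ha, Nat.lt_succ_self _⟩⟩
  | @cons a b c h w ih =>
    have h1 := hG _ _ h
    have hb : 0 < b := by
      rcases h1 with h1 | h1
      · exact (hR _ _ h1).2
      · exact (hR _ _ h1).1
    obtain ⟨M, hM⟩ := ih hb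
    refine ⟨M + a + 1, ?_⟩
    have h2 : Wk R (Bd (M + a + 1)) b c w.length := hM.mono (fun n hn => ⟨hn.1, by
      have := hn.2
      omega⟩)
    have h3 : Wk R (Bd (M + a + 1)) a b 1 :=
      Wk.step a b 0 (Wk.refl ⟨ha, by omega⟩) h1 h2.left
    have h4 := h3.trans h2
    rw [SimpleGraph.Walk.length_cons, add_comm w.length 1]
    exact h4

/-- the two-colouring -/
theorem two_col {p : ℕ} {r : ℕ → ℕ → Prop} (h : ∀ M, Evn p r M) :
    ∃ f : ℕ → Fin 2, ∀ x n, Ed p r x n → f x ≠ f n := by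
  classical
  have hne : ∀ x n, Ed p r x n → x ≠ n := by
    rintro x n hx rfl
    have h1 : Wk (Ed p r) (Bd (x + 1)) x x 1 := by
      have h2 : 0 < x := by obtain ⟨y, hx, hy, hn, hxy⟩ := hx; exact hx
      exact Wk.step x x 0 (Wk.refl ⟨h2, by omega⟩) (Or.inl hx) ⟨h2, by omega⟩
    obtain ⟨k, hk⟩ := h _ _ _ h1
    omega
  have hpos : ∀ x n, Ed p r x n → 0 < x ∧ 0 < n := by
    rintro x n ⟨y, hx, hy, hn, hxy⟩
    exact ⟨hx, by omega⟩
  let G : SimpleGraph ℕ := SimpleGraph.fromRel (Ed p r)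
  have hG : ∀ a b, G.Adj a b → Ed p r a b ∨ Ed p r b a := fun a b hab => by
    rw [SimpleGraph.fromRel_adj] at hab
    exact hab.2
  have h2 : G.Colorable 2 := by
    rw [SimpleGraph.two_colorable_iff_forall_loop_even]
    intro a w
    rcases Nat.eq_zero_or_pos a with ha | ha
    · cases w with
      | nil => exact Even.zero
      | cons h0 w =>
        exfalso
        rcases hG _ _ h0 with h1 | h1
        · have := (hpos _ _ h1).1
          omega
        · have := (hpos _ _ h1).2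
          omega
    · obtain ⟨M, hM⟩ := wk_of_walk hG hpos w ha
      exact h M a _ hM
  obtain ⟨col⟩ := h2
  refine ⟨col, fun x n hxn => ?_⟩
  exact col.valid (by rw [SimpleGraph.fromRel_adj]; exact ⟨hne x n hxn, Or.inl hxn⟩)

end PRF
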