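import Mathlib

/-!
# The graph `x -- y + p ^ y * x` has no odd cycle when `tz x < tz y` (and when `tz x = tz y`)

`tz p n` is the number of trailing zero digits of `n` to the base `p`. For a relation `r` which is `<` or `=`,
`Ed p r x n` says that `n = y + p ^ y * x` for some `y` with `r (tz p x) (tz p y)`.
-/

namespace PRF

/-- number of trailing zero digits of `n` to the base `p` -/
def tz (p n : ℕ) : ℕ := Nat.findGreatest (fun k => p ^ k ∣ n) n

theorem pow_dvd_iff {p n k : ℕ} (hp : 2 ≤ p) (hn : 0 < n) : p ^ k ∣ n ↔ k ≤ tz p n := by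
  constructor
  · intro h
    have : k ≤ n := (Nat.lt_pow_self hp).le.trans (Nat.le_of_dvd hn h)
    exact Nat.le_findGreatest this h
  · intro h
    have h1 : p ^ tz p n ∣ n :=
      Nat.findGreatest_spec (P := fun k => p ^ k ∣ n) (Nat.zero_le n) (by simp)
    exact (pow_dvd_pow p h).trans h1

theorem pow_tz_dvd {p n : ℕ} (hp : 2 ≤ p) (hn : 0 < n) : p ^ tz p n ∣ n :=
  (pow_dvd_iff hp hn).mpr le_rfl

theorem tz_le_log {p n : ℕ} (hp : 2 ≤ p) (hn : 0 < n) : tz p n ≤ Nat.log p n :=
  Nat.le_log_of_pow_le hp (Nat.le_of_dvd hn (pow_tz_dvd hp hn))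

theorem tz_eq_of_iff {p m n : ℕ} (hp : 2 ≤ p) (hm : 0 < m) (hn : 0 < n)
    (h : ∀ k, p ^ k ∣ m ↔ p ^ k ∣ n) : tz p m = tz p n := by
  apply le_antisymm
  · exact (pow_dvd_iff hp hn).mp ((h _).mp (pow_tz_dvd hp hm))
  · exact (pow_dvd_iff hp hm).mp ((h _).mpr (pow_tz_dvd hp hn))

/-- adding a multiple of a large power does not change the trailing zeros -/
theorem tz_add {p t e C : ℕ} (hp : 2 ≤ p) (ht : 0 < t) (hte : t < p ^ e) :
    tz p (t + p ^ e * C) = tz p t := by
  apply tz_eq_of_iff hp (by omega) ht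
  intro k
  rcases le_or_gt k e with hk | hk
  · have h1 : p ^ k ∣ p ^ e * C := (pow_dvd_pow p hk).mul_right C
    exact (Nat.dvd_add_left h1)
  · constructor
    · intro h
      exfalso
      have h1 : p ^ e ∣ t + p ^ e * C := (pow_dvd_pow p hk.le).trans h
      have h2 : p ^ e ∣ t := (Nat.dvd_add_left (Dvd.intro C rfl)).mp h1
      have h3 := Nat.le_of_dvd ht h2
      omega
    · intro h
      exfalso
      have h1 := Nat.le_of_dvd ht h
      have h2 : p ^ e ≤ p ^ k := Nat.pow_le_pow_right (by omega) hk.le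
      omega

theorem tz_pow_mul {p u C : ℕ} (hp : 2 ≤ p) (hC : 0 < C) (hpC : ¬ p ∣ C) :
    tz p (p ^ u * C) = u := by
  have hpos : 0 < p ^ u * C := Nat.mul_pos (Nat.pow_pos (by omega)) hC
  apply le_antisymm
  · by_contra hcon
    push Not at hcon
    have h1 : p ^ (u + 1) ∣ p ^ u * C := (pow_dvd_iff hp hpos).mpr hcon
    rw [pow_succ] at h1
    exact hpC (Nat.dvd_of_mul_dvd_mul_left (Nat.pow_pos (by omega)) h1)
  · exact (pow_dvd_iff hp hpos).mp (Dvd.intro C rfl)

theorem log_add {p t e C : ℕ} (hp : 2 ≤ p) (hC : 0 < C) (hte : t < p ^ e) :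
    Nat.log p (t + p ^ e * C) = e + Nat.log p C := by
  have hpe : 0 < p ^ e := Nat.pow_pos (by omega)
  apply (Nat.log_eq_iff (Or.inr ⟨by omega, by positivity⟩)).mpr
  constructor
  · rw [pow_add]
    have := Nat.mul_le_mul_left (p ^ e) (Nat.pow_log_le_self p hC.ne')
    omega
  · have h1 : C + 1 ≤ p ^ (Nat.log p C + 1) := Nat.lt_pow_succ_log_self (by omega) C
    have h2 := Nat.mul_le_mul_left (p ^ e) h1
    rw [← pow_add, show e + (Nat.log p C + 1) = e + Nat.log p C + 1 from rfl, mul_add, mul_one] at h2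
    omega

theorem log_step {p y t : ℕ} (hp : 2 ≤ p) (ht : 0 < t) :
    Nat.log p (y + p ^ y * t) = y + Nat.log p t :=
  log_add hp ht (Nat.lt_pow_self hp)

theorem log_lt_self {p n : ℕ} (hp : 2 ≤ p) (hn : 0 < n) : Nat.log p n < n := by
  have h1 := Nat.pow_log_le_self p hn.ne'
  have h2 : Nat.log p n < p ^ Nat.log p n := Nat.lt_pow_self hp
  omega

/-- `Wk R Q a b l`: a walk of length `l` from `a` to `b` along the symmetric closure of `R`,
with all vertices in `Q` -/
inductive Wk (R : ℕ → ℕ → Prop) (Q : ℕ → Prop) (a : ℕ) : ℕ → ℕ → Prop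
  | refl (h : Q a) : Wk R Q a a 0
  | step (b c l : ℕ) (h : Wk R Q a b l) (h1 : R b c ∨ R c b) (h2 : Q c) : Wk R Q a c (l + 1)

theorem Wk.left {R : ℕ → ℕ → Prop} {Q : ℕ → Prop} {a b l : ℕ} (h : Wk R Q a b l) : Q a := by
  induction h with
  | refl h => exact h
  | step b c l h h1 h2 ih => exact ih

theorem Wk.right {R : ℕ → ℕ → Prop} {Q : ℕ → Prop} {a b l : ℕ} (h : Wk R Q a b l) : Q b := by
  induction h with
  | refl h => exact h
  | step b c l h h1 h2 ih => exact h2

theorem Wk.mono {R : ℕ → ℕ → Prop} {Q Q' : ℕ → Prop} (hQ : ∀ n, Q n → Q' n) {a b l : ℕ}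
    (h : Wk R Q a b l) : Wk R Q' a b l := by
  induction h with
  | refl h => exact Wk.refl (hQ a h)
  | step b c l h h1 h2 ih => exact Wk.step b c l ih h1 (hQ c h2)

theorem Wk.trans {R : ℕ → ℕ → Prop} {Q : ℕ → Prop} {a b c l m : ℕ} (h : Wk R Q a b l)
    (h' : Wk R Q b c m) : Wk R Q a c (l + m) := by
  induction h' with
  | refl hb => exact h
  | step c d m h1 h2 h3 ih => exact Wk.step c d (l + m) ih h2 h3

theorem Wk.symm {R : ℕ → ℕ → Prop} {Q : ℕ → Prop} {a b l : ℕ} (h : Wk R Q a b l) :
    Wk R Q b a l := by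
  induction h with
  | refl h => exact Wk.refl h
  | step b c l h h1 h2 ih =>
    have h3 : Wk R Q c b 1 := Wk.step c b 0 (Wk.refl h2) h1.symm h.right
    have := h3.trans ih
    rwa [add_comm] at this

/-- split a walk at a vertex where `f` is minimal -/
theorem Wk.exists_min {R : ℕ → ℕ → Prop} {Q : ℕ → Prop} (f : ℕ → ℕ) {a b l : ℕ}
    (h : Wk R Q a b l) : ∃ c l1 l2, Wk R (fun n => Q n ∧ f c ≤ f n) c a l1 ∧
      Wk R (fun n => Q n ∧ f c ≤ f n) c b l2 ∧ l = l1 + l2 := by
  induction h with
  | refl h => exact ⟨a, 0, 0, Wk.refl ⟨h, le_rfl⟩, Wk.refl ⟨h, le_rfl⟩, rfl⟩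
  | step b d l h h1 h2 ih =>
    obtain ⟨c, l1, l2, hc1, hc2, hl⟩ := ih
    rcases le_or_gt (f c) (f d) with hcd | hcd
    · exact ⟨c, l1, l2 + 1, hc1, Wk.step b d l2 hc2 h1 ⟨h2, hcd⟩, by omega⟩
    · have hm : ∀ n, (Q n ∧ f c ≤ f n) → (Q n ∧ f d ≤ f n) := fun n hn => ⟨hn.1, by omega⟩
      have h3 := hc1.mono hm
      have h4 := hc2.mono hm
      have h5 : Wk R (fun n => Q n ∧ f d ≤ f n) d b 1 :=
        Wk.step d b 0 (Wk.refl ⟨h2, le_rfl⟩) h1.symm h4.right
      exact ⟨d, 1 + l2 + l1, 0, (h5.trans h4.symm).trans h3, Wk.refl ⟨h2, le_rfl⟩, by omega⟩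

/-- the edges `x -- y + p ^ y * x` with a condition on the trailing zeros of `x` and `y` -/
def Ed (p : ℕ) (r : ℕ → ℕ → Prop) (x n : ℕ) : Prop :=
  ∃ y, 0 < x ∧ 0 < y ∧ n = y + p ^ y * x ∧ r (tz p x) (tz p y)

/-- the positive integers below `M` -/
def Bd (M n : ℕ) : Prop := 0 < n ∧ n < M

/-- two labels in one component are never close to each other -/
def Sep (p : ℕ) (r : ℕ → ℕ → Prop) (M : ℕ) : Prop :=
  ∀ Y1 Y2 l a1 a2, Wk (Ed p r) (Bd M) Y1 Y2 l → r a1 (tz p Y1) → r a2 (tz p Y2) →
    Y1 + Nat.log p Y2 + a1 = Y2 + Nat.log p Y1 + a2 → Y1 = Y2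

/-- closed walks have even length -/
def Evn (p : ℕ) (r : ℕ → ℕ → Prop) (M : ℕ) : Prop :=
  ∀ Y l, Wk (Ed p r) (Bd M) Y Y l → Even l

/-- the description of the vertices reached from `p ^ u * C` -/
def St (p : ℕ) (r : ℕ → ℕ → Prop) (C u M n l : ℕ) : Prop :=
  (n = p ^ u * C ∧ Even l) ∨ ∃ t e Y l', 0 < t ∧ t < p ^ e ∧ n = t + p ^ e * C ∧ 0 < Y ∧
    r u (tz p Y) ∧ Wk (Ed p r) (Bd M) Y t l' ∧ Even (l + l' + 1) ∧
    e + Nat.log p Y = Nat.log p t + Y + u

/-- length of the part of the digit string above the trailing zeros -/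
def len (p n : ℕ) : ℕ := Nat.log p n - tz p n

theorem state {p : ℕ} {r : ℕ → ℕ → Prop} {C u M : ℕ} (hp : 2 ≤ p) (hC : 0 < C) (hpC : ¬ p ∣ C)
    (hS : Sep p r M) (hE : Evn p r M) {n l : ℕ}
    (h : Wk (Ed p r) (fun n => Bd (M + 1) n ∧ Nat.log p C ≤ len p n) (p ^ u * C) n l) :
    St p r C u M n l := by
  generalize ha : p ^ u * C = a at h
  induction h with
  | refl h => exact Or.inl ⟨ha.symm, Even.zero⟩
  | step b c l h h1 h2 ih =>
    rcases ih with ⟨hb, hl⟩ | ⟨t, e, Y, l', ht, hte, hb, hY, hr, hw, hl, he⟩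
    · -- at a zero string
      rcases h1 with ⟨y, hb0, hy, hc, hry⟩ | ⟨y, hc0, hy, hb1, hry⟩
      · refine Or.inr ⟨y, y + u, y, 0, hy, ?_, ?_, hy, ?_, Wk.refl ⟨hy, ?_⟩, ?_, ?_⟩
        · exact (Nat.lt_pow_self hp).trans_le (Nat.pow_le_pow_right (by omega) (by omega))
        · rw [hc, hb, pow_add, mul_assoc]
        · rwa [hb, tz_pow_mul hp hC hpC] at hry
        · have h3 := h2.1.2
          have h4 : 0 < p ^ y * b := Nat.mul_pos (Nat.pow_pos (by omega)) hb0
          omega
        · obtain ⟨k, hk⟩ := hl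
          exact ⟨k + 1, by omega⟩
        · omega
      · exfalso
        have h3 : Nat.log p b = y + Nat.log p c := by rw [hb1]; exact log_step hp hc0
        have h4 : Nat.log p b = u + Nat.log p C := by
          have := log_add (t := 0) (e := u) hp hC (Nat.pow_pos (by omega))
          rwa [zero_add, ← hb] at this
        have h5 : u < y := by
          by_contra hcon
          push Not at hcon
          have h6 : p ^ y ∣ b := by
            rw [hb]; exact (pow_dvd_pow p hcon).mul_right C
          rw [hb1] at h6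
          have h7 : p ^ y ∣ y := (Nat.dvd_add_left (Dvd.intro c rfl)).mp h6
          have h8 := Nat.le_of_dvd hy h7
          have h9 : y < p ^ y := Nat.lt_pow_self hp
          omega
        have h6 := h2.2
        unfold len at h6
        omega
    · have hbz : tz p b = tz p t := by rw [hb]; exact tz_add hp ht hte
      have hbl : Nat.log p b = e + Nat.log p C := by rw [hb]; exact log_add hp hC hte
      rcases h1 with ⟨y, hb0, hy, hc, hry⟩ | ⟨y, hc0, hy, hb1, hry⟩
      · -- up
        have hlt : y + p ^ y * t < p ^ (y + e) := by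
          have h3 : t + 1 ≤ p ^ e := hte
          have h4 := Nat.mul_le_mul_left (p ^ y) h3
          rw [← pow_add, mul_add, mul_one] at h4
          have h5 : y < p ^ y := Nat.lt_pow_self hp
          omega
        refine Or.inr ⟨y + p ^ y * t, y + e, Y, l' + 1, by omega, hlt, ?_, hY, hr, ?_, ?_, ?_⟩
        · rw [hc, hb, pow_add]; ring
        · refine Wk.step t _ l' hw (Or.inl ⟨y, ht, hy, rfl, ?_⟩) ⟨by omega, ?_⟩
          · rwa [hbz] at hry
          · have h3 := h2.1.2
            have h4 : y + p ^ y * t < c := by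
              rw [hc, hb, mul_add]
              have : 0 < p ^ y * (p ^ e * C) :=
                Nat.mul_pos (Nat.pow_pos (by omega)) (Nat.mul_pos (Nat.pow_pos (by omega)) hC)
              omega
            omega
        · obtain ⟨k, hk⟩ := hl
          exact ⟨k + 1, by omega⟩
        · rw [log_step hp ht]; omega
      · -- down
        have h3 : Nat.log p b = y + Nat.log p c := by rw [hb1]; exact log_step hp hc0
        have hye : y ≤ e := by
          by_contra hcon
          push Not at hcon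
          have h6 := h2.2
          unfold len at h6
          omega
        have h9 : y < p ^ y := Nat.lt_pow_self hp
        have hpe : p ^ e = p ^ y * p ^ (e - y) := by rw [← pow_add]; congr 1; omega
        have h10 : t + p ^ y * (p ^ (e - y) * C) = y + p ^ y * c := by
          rw [← hb1, hb, hpe]; ring
        have h11 : t % p ^ y = y := by
          have := congrArg (· % p ^ y) h10
          simpa [Nat.add_mul_mod_self_left, Nat.mod_eq_of_lt h9] using this
        have h12 : t = y + p ^ y * (t / p ^ y) := by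
          have := Nat.mod_add_div t (p ^ y)
          omega
        set s := t / p ^ y with hs
        have hpy : 0 < p ^ y := Nat.pow_pos (by omega)
        have h13 : c = s + p ^ (e - y) * C := by
          have h14 : p ^ y * c = p ^ y * (s + p ^ (e - y) * C) := by
            rw [mul_add]; omega
          exact Nat.eq_of_mul_eq_mul_left hpy h14
        have h15 : s < p ^ (e - y) := by
          by_contra hcon
          push Not at hcon
          have := Nat.mul_le_mul_left (p ^ y) hcon
          omega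
        rcases Nat.eq_zero_or_pos s with hs0 | hs0
        · -- back to a zero string
          rw [hs0, mul_zero, add_zero] at h12
          rw [hs0, zero_add] at h13
          subst h12
          have h16 : tz p c = e - t := by rw [h13]; exact tz_pow_mul hp hC hpC
          rw [h16] at hry
          have h17 := hS Y t l' u (e - t) hw hr hry (by omega)
          subst h17
          have h18 : e - Y = u := by omega
          refine Or.inl ⟨by rw [h13, h18], ?_⟩
          have h19 := hE Y l' hw
          obtain ⟨k, hk⟩ := hl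
          obtain ⟨k', hk'⟩ := h19
          exact ⟨k - k', by omega⟩
        · refine Or.inr ⟨s, e - y, Y, l' + 1, hs0, h15, h13, hY, hr, ?_, ?_, ?_⟩
          · refine Wk.step t s l' hw (Or.inr ⟨y, hs0, hy, h12, ?_⟩) ⟨hs0, ?_⟩
            · have h16 : tz p c = tz p s := by rw [h13]; exact tz_add hp hs0 h15
              rwa [h16] at hry
            · have h17 := hw.right.2
              have h18 : s ≤ p ^ y * s := Nat.le_mul_of_pos_left s hpy
              omega
          · obtain ⟨k, hk⟩ := hl
            exact ⟨k + 1, by omega⟩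
          · have h16 : Nat.log p t = y + Nat.log p s := by
              conv_lhs => rw [h12]
              exact log_step hp hs0
            omega

end PRF
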