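import Pool.Agent.PRF.Forest2

/-!
# The remaining case `tz y < tz x`, and one finite colouring for each base
-/

namespace PRF

/-- iterated exponentials with base `p` -/
def tow (p : ℕ) : ℕ → ℕ
  | 0 => 1
  | k + 1 => p ^ tow p k

theorem lt_tow {p : ℕ} (hp : 2 ≤ p) (k : ℕ) : k < tow p k := by
  induction k with
  | zero => simp [tow]
  | succ k ih =>
    have : tow p k < p ^ tow p k := Nat.lt_pow_self hp
    simp only [tow]
    omega

/-- iterated logarithm -/
def lst (p n : ℕ) : ℕ := Nat.findGreatest (fun k => tow p k ≤ n) n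

theorem le_lst {p n k : ℕ} (hp : 2 ≤ p) (hn : 0 < n) : k ≤ lst p n ↔ tow p k ≤ n := by
  have h1 : tow p (lst p n) ≤ n :=
    Nat.findGreatest_spec (P := fun k => tow p k ≤ n) (Nat.zero_le n) hn
  have hmono : ∀ {i j : ℕ}, i ≤ j → tow p i ≤ tow p j := by
    intro i j hij
    induction hij with
    | refl => exact le_rfl
    | step h ih =>
      have : ∀ m, tow p m < tow p (m + 1) := fun m => by
        simp only [tow]
        exact Nat.lt_pow_self hp
      exact ih.trans (this _).le
  constructor
  · intro h
    exact (hmono h).trans h1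
  · intro h
    exact Nat.le_findGreatest ((lt_tow hp k).le.trans h) h

theorem lst_log {p n : ℕ} (hp : 2 ≤ p) (hn : p ≤ n) : lst p n = lst p (Nat.log p n) + 1 := by
  have h0 : 0 < n := by omega
  have h1 : 0 < Nat.log p n := Nat.log_pos (by omega) hn
  apply le_antisymm
  · rcases Nat.eq_zero_or_pos (lst p n) with h | h
    · omega
    · obtain ⟨k, hk⟩ : ∃ k, lst p n = k + 1 := ⟨lst p n - 1, by omega⟩
      rw [hk]
      have h2 : tow p (k + 1) ≤ n := (le_lst hp h0).mp hk.ge
      have h3 : tow p k ≤ Nat.log p n := Nat.le_log_of_pow_le hp h2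
      have h4 := (le_lst hp h1).mpr h3
      omega
  · apply (le_lst hp h0).mpr
    have h3 : tow p (lst p (Nat.log p n)) ≤ Nat.log p n := (le_lst hp h1).mp le_rfl
    calc tow p (lst p (Nat.log p n) + 1) = p ^ tow p (lst p (Nat.log p n)) := rfl
      _ ≤ p ^ Nat.log p n := Nat.pow_le_pow_right (by omega) h3
      _ ≤ n := Nat.pow_log_le_self p h0.ne'

theorem lst_close {p y l : ℕ} (hp : 2 ≤ p) (hy : 0 < y) (h1 : y ≤ l) (h2 : l < 2 * y) :
    lst p y ≤ lst p l ∧ lst p l ≤ lst p y + 1 := by
  have hl : 0 < l := by omega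
  constructor
  · exact (le_lst hp hl).mpr (((le_lst hp hy).mp le_rfl).trans h1)
  · by_contra hcon
    push Not at hcon
    have h3 : tow p (lst p y + 2) ≤ l := (le_lst hp hl).mp hcon
    have h4 : y < tow p (lst p y + 1) := by
      by_contra h
      push Not at h
      have := (le_lst hp hy).mpr h
      omega
    have h5 : 2 * y ≤ p ^ y := by
      have : ∀ n : ℕ, 0 < n → 2 * n ≤ 2 ^ n := by
        intro n hn
        induction n with
        | zero => omega
        | succ n ih =>
          rcases Nat.eq_zero_or_pos n with h0 | h0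
          · subst h0; norm_num
          · have := ih h0
            rw [pow_succ]
            omega
      exact (this y hy).trans (Nat.pow_le_pow_left hp y)
    have h6 : p ^ y ≤ tow p (lst p y + 2) := by
      show p ^ y ≤ p ^ tow p (lst p y + 1)
      exact Nat.pow_le_pow_right (by omega) h4.le
    omega

/-- a colouring with three colours that changes under addition of `a` modulo `m` -/
theorem cyc (m a : ℕ) : ∃ χ : ℕ → Fin 3, 0 < a → a < m → ∀ d < m, χ ((d + a) % m) ≠ χ d := by
  -- first the case of a small step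
  have small : ∀ a, 0 < a → 2 * a ≤ m →
      ∃ χ : ℕ → Fin 3, ∀ d < m, χ ((d + a) % m) ≠ χ d := by
    intro a ha ham
    refine ⟨fun d => if m - a ≤ d then 2 else if (d / a) % 2 = 0 then 0 else 1, ?_⟩
    intro d hd
    by_cases h1 : m - a ≤ d
    · have h2 : (d + a) % m = d + a - m := by
        rw [Nat.mod_eq_sub_mod (by omega), Nat.mod_eq_of_lt (by omega)]
      have h3 : ¬ (m - a ≤ d + a - m) := by omega
      have h4 : (d + a - m) / a = 0 := Nat.div_eq_of_lt (by omega)
      simp only [h1, h2, h3, h4, if_true, if_false]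
      decide
    · have h2 : (d + a) % m = d + a := Nat.mod_eq_of_lt (by omega)
      have h3 : (d + a) / a = d / a + 1 := Nat.add_div_right d ha
      simp only [h1, h2, h3, if_false]
      by_cases h4 : m - a ≤ d + a
      · simp only [h4, if_true]
        split_ifs <;> decide
      · simp only [h4, if_false]
        rcases Nat.mod_two_eq_zero_or_one (d / a) with h5 | h5
        · have h6 : (d / a + 1) % 2 = 1 := by omega
          simp [h5, h6]
        · have h6 : (d / a + 1) % 2 = 0 := by omega
          simp [h5, h6]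
  by_cases ha : 0 < a ∧ a < m
  · rcases le_or_gt (2 * a) m with h | h
    · obtain ⟨χ, hχ⟩ := small a ha.1 h
      exact ⟨χ, fun _ _ => hχ⟩
    · obtain ⟨χ, hχ⟩ := small (m - a) (by omega) (by omega)
      refine ⟨χ, fun _ _ d hd => ?_⟩
      have h1 := hχ ((d + a) % m) (Nat.mod_lt _ (by omega))
      have h2 : ((d + a) % m + (m - a)) % m = d := by
        rw [Nat.mod_add_mod, show d + a + (m - a) = d + m by omega, Nat.add_mod_right,
          Nat.mod_eq_of_lt hd]
      rw [h2] at h1
      exact h1.symm
  · exact ⟨fun _ => 0, fun h1 h2 => absurd ⟨h1, h2⟩ ha⟩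

/-- the colours of the exponents -/
abbrev Col := Fin 2 × Fin 2 × Fin 3 × Fin 2 × Fin 3

/-- One colouring of the exponents for each base. -/
theorem exists_col {p : ℕ} (hp : 2 ≤ p) : ∃ c : ℕ → Col, ∀ x y : ℕ, 0 < x → 0 < y →
    c y = c x → c (x + y) = c x → c (p ^ y * x + y) = c x → False := by
  obtain ⟨f, hf⟩ := two_col (p := p) (r := fun a b => a < b) (fun M => (main_lt hp M).2)
  obtain ⟨g, hg⟩ := two_col (p := p) (r := fun a b => a = b) (main_eq hp)
  choose χ hχ using cyc p
  refine ⟨fun e => (f e, g e, ⟨lst p e % 3, Nat.mod_lt _ (by norm_num)⟩,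
    ⟨Nat.log p e % 2, Nat.mod_lt _ (by norm_num)⟩,
    χ ((e / p ^ tz p e) % p) ((Nat.log p e / p ^ tz p e) % p)), ?_⟩
  intro x y hx hy h1 h2 h4
  simp only [Prod.mk.injEq, Fin.mk.injEq] at h1 h2 h4
  obtain ⟨-, -, y3, -, -⟩ := h1
  obtain ⟨-, -, -, s4, s5⟩ := h2
  obtain ⟨z1, z2, z3, -, z5⟩ := h4
  have hzy : p ^ y * x + y = y + p ^ y * x := by ring
  rcases lt_trichotomy (tz p x) (tz p y) with hlt | heq | hgt
  · exact hf x (p ^ y * x + y) ⟨y, hx, hy, hzy, hlt⟩ z1.symm
  · exact hg x (p ^ y * x + y) ⟨y, hx, hy, hzy, heq⟩ z2.symm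
  · -- the digit argument
    have hyp : y < p ^ y := Nat.lt_pow_self hp
    have hlog : Nat.log p (p ^ y * x + y) = y + Nat.log p x := by rw [hzy]; exact log_step hp hx
    set w := tz p y with hw
    have hpw : 0 < p ^ w := Nat.pow_pos (by omega)
    have htz1 : tz p (p ^ y * x + y) = w := by rw [hzy, tz_add hp hy hyp]
    have hxw : p ^ (w + 1) ∣ x := (pow_dvd_iff hp hx).mpr hgt
    have htz2 : tz p (x + y) = w := by
      apply le_antisymm
      · by_contra hcon
        push Not at hcon
        have h5 : p ^ (w + 1) ∣ x + y := (pow_dvd_iff hp (by omega)).mpr hcon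
        have h6 : p ^ (w + 1) ∣ y := (Nat.dvd_add_right hxw).mp h5
        have h7 := (pow_dvd_iff hp hy).mp h6
        omega
      · apply (pow_dvd_iff hp (by omega)).mp
        exact dvd_add ((pow_dvd_pow p (by omega)).trans hxw) (pow_tz_dvd hp hy)
    by_cases hl : Nat.log p (x + y) = Nat.log p x
    · obtain ⟨x', hx'⟩ := hxw
      obtain ⟨y', hy'⟩ := pow_tz_dvd hp hy
      rw [← hw] at hy'
      have e1 : (x + y) / p ^ w = y' + p * x' := by
        have h5 : x + y = p ^ w * (y' + p * x') := by
          rw [hx']; conv_lhs => rw [hy']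
          ring
        rw [h5, Nat.mul_div_cancel_left _ hpw]
      have e2 : (p ^ y * x + y) / p ^ w = y' + p * (p ^ y * x') := by
        have h5 : p ^ y * x + y = p ^ w * (y' + p * (p ^ y * x')) := by
          rw [hx', mul_add, ← hy']
          ring
        rw [h5, Nat.mul_div_cancel_left _ hpw]
      have e3 : Nat.log p (p ^ y * x + y) / p ^ w = Nat.log p x / p ^ w + y' := by
        rw [hlog]
        conv_lhs => rw [hy']
        rw [add_comm, Nat.add_mul_div_left _ _ hpw]
      rw [htz1, e2, e3] at z5
      rw [htz2, e1, hl] at s5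
      rw [Nat.add_mul_mod_self_left] at z5 s5
      rw [← s5] at z5
      have hy'0 : 0 < y' % p := by
        rw [Nat.pos_iff_ne_zero]
        intro h5
        have h6 : p ∣ y' := Nat.dvd_of_mod_eq_zero h5
        obtain ⟨y2, hy2⟩ := h6
        have h7 : p ^ (w + 1) ∣ y := ⟨y2, by rw [hy', hy2]; ring⟩
        have h8 := (pow_dvd_iff hp hy).mp h7
        omega
      have h7 := hχ (y' % p) hy'0 (Nat.mod_lt _ (by omega)) (Nat.log p x / p ^ w % p)
        (Nat.mod_lt _ (by omega))
      rw [← Nat.add_mod] at h7
      exact h7 z5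
    · -- the logarithms of `x` and `x + y` differ
      rcases le_or_gt y (Nat.log p x) with hyl | hyl
      · have h5 : y < x := lt_of_le_of_lt hyl (log_lt_self hp hx)
        have h6 : Nat.log p x ≤ Nat.log p (x + y) := Nat.log_mono_right (by omega)
        have h7 : Nat.log p (x + y) ≤ Nat.log p x + 1 := by
          have h8 : x < p ^ (Nat.log p x + 1) := Nat.lt_pow_succ_log_self (by omega) x
          have h9 : x + y < p ^ (Nat.log p x + 2) := by
            have : p ^ (Nat.log p x + 2) = p ^ (Nat.log p x + 1) * p := rfl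
            rw [this]
            have := Nat.mul_le_mul_left (p ^ (Nat.log p x + 1)) hp
            omega
          exact Nat.lt_succ_iff.mp (Nat.log_lt_of_lt_pow (by omega) h9)
        omega
      · have h5 : p ≤ p ^ y * x + y := by
          have h6 : p ^ 1 ≤ p ^ y := Nat.pow_le_pow_right (by omega) hy
          have h7 : p ^ y * 1 ≤ p ^ y * x := Nat.mul_le_mul_left _ hx
          rw [pow_one] at h6
          omega
        have h6 := lst_log hp h5
        rw [hlog] at h6
        have h7 := lst_close hp hy (l := y + Nat.log p x) (by omega) (by omega)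
        omega

end PRF
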