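import Mathlib
import Pool.Agent.PRF.Kron4

/-!
# The Kronecker kill for valuations of additive functions
-/

namespace PRF

/-- the completely additive integer valued function with values `h q` at the primes -/
def Phi (h : ℕ → ℤ) (n : ℕ) : ℤ := n.factorization.sum fun q e => (e : ℤ) * h q

theorem Phi_mul (h : ℕ → ℤ) {m n : ℕ} (hm : m ≠ 0) (hn : n ≠ 0) :
    Phi h (m * n) = Phi h m + Phi h n := by
  unfold Phi
  rw [Nat.factorization_mul hm hn, Finsupp.sum_add_index']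
  · intro q; simp
  · intro q e e'; push_cast; ring

theorem Phi_pow (h : ℕ → ℤ) (n k : ℕ) : Phi h (n ^ k) = k * Phi h n := by
  unfold Phi
  rw [Nat.factorization_pow, Finsupp.sum_smul_index']
  · simp only [Finsupp.sum, smul_eq_mul, Nat.cast_mul, Finset.mul_sum]
    apply Finset.sum_congr rfl
    intro q _
    ring
  · intro q; simp

theorem chi_Phi (h : ℕ → ℤ) (t : ℝ) (n : ℕ) : chi (fun q => (h q : ℝ) * t) n = (Phi h n : ℝ) * t := by
  unfold chi Phi
  rw [Finsupp.sum, Finsupp.sum]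
  push_cast
  rw [Finset.sum_mul]
  apply Finset.sum_congr rfl
  intro q _
  ring

/-- a multiple of `r` which is far from `0` modulo `l` -/
theorem exists_far {l : ℕ} (hl : l.Prime) {r : ℤ} (hr : ¬ (l : ℤ) ∣ r) :
    ∃ m : ℤ, ∀ k : ℤ, 1 / 10 ≤ |(m * r : ℝ) / l - k| := by
  have hcop : IsCoprime r (l : ℤ) := by
    have h1 : Prime (l : ℤ) := Nat.prime_iff_prime_int.mp hl
    exact (h1.coprime_iff_not_dvd.mpr hr).symm
  obtain ⟨u, v, huv⟩ := hcop
  refine ⟨u * ((l / 2 : ℕ) : ℤ), ?_⟩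
  intro k
  have hl0 : (0:ℝ) < l := by exact_mod_cast hl.pos
  have h2 : ((u * ((l / 2 : ℕ) : ℤ) : ℤ) : ℝ) * r / l - k =
      ((l / 2 : ℕ) : ℝ) / l - ((v * ((l / 2 : ℕ) : ℤ) + k : ℤ) : ℝ) := by
    have h3 : (u : ℝ) * r = 1 - v * l := by
      have : (u * r + v * l : ℤ) = 1 := huv
      have h4 : ((u * r + v * l : ℤ) : ℝ) = 1 := by rw [this]; simp
      push_cast at h4
      linarith
    generalize l / 2 = t
    have h5 : ((u * (t : ℤ) : ℤ) : ℝ) * r = (t : ℝ) * (1 - v * l) := by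
      rw [← h3]; push_cast; ring
    rw [h5]
    push_cast
    field_simp
    ring
  rw [h2]
  set j : ℤ := v * ((l / 2 : ℕ) : ℤ) + k with hj
  have h3 : (1:ℝ) / 3 ≤ ((l / 2 : ℕ) : ℝ) / l := by
    rw [div_le_div_iff₀ (by norm_num) hl0]
    have : l ≤ 3 * (l / 2) := by
      have := hl.two_le
      omega
    have h4 : (l : ℝ) ≤ 3 * ((l / 2 : ℕ) : ℝ) := by exact_mod_cast this
    linarith
  have h4 : ((l / 2 : ℕ) : ℝ) / l ≤ 1 / 2 := by
    rw [div_le_div_iff₀ hl0 (by norm_num)]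
    have : 2 * (l / 2) ≤ l := by omega
    have h4 : 2 * ((l / 2 : ℕ) : ℝ) ≤ (l : ℝ) := by exact_mod_cast this
    linarith
  rcases le_or_gt j 0 with hj0 | hj0
  · have : (j : ℝ) ≤ 0 := by exact_mod_cast hj0
    rw [abs_of_nonneg (by linarith)]
    linarith
  · have : (1:ℝ) ≤ j := by exact_mod_cast hj0
    rw [abs_of_nonpos (by linarith)]
    linarith

/-- **Valuation kill.** -/
theorem valuation_kill {E : Type*} (e : ℕ → E) (l : E → ℕ) (h : E → ℕ → ℤ) :
    ∃ c : ℕ → Fin 2 × Fin 16, ∀ a b : ℕ, 2 ≤ a → 2 ≤ b → GG b ≤ Nat.log 2 a →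
      e (a * b) = e (a ^ b * b) → (l (e (a * b))).Prime →
      (∃ w : ℕ, ((l (e (a * b)) : ℤ)) ^ (w + 1) ∣ Phi (h (e (a * b))) a ∧
        ¬ ((l (e (a * b)) : ℤ)) ^ (w + 1) ∣ Phi (h (e (a * b))) b) →
      c (a * b) ≠ c (a ^ b * b) := by
  classical
  -- the multiplier
  have hm : ∀ (l : ℕ) (r : ℤ), ∃ m : ℤ, l.Prime → ¬ (l : ℤ) ∣ r →
      ∀ k : ℤ, 1 / 10 ≤ |(m * r : ℝ) / l - k| := by
    intro l r
    by_cases h : l.Prime ∧ ¬ (l : ℤ) ∣ r
    · obtain ⟨m, hm⟩ := exists_far h.1 h.2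
      exact ⟨m, fun _ _ => hm⟩
    · exact ⟨0, fun h1 h2 => absurd ⟨h1, h2⟩ h⟩
  choose mm hmm using hm
  set val : ℕ → ℕ := fun n => padicValInt (l (e n)) (Phi (h (e n)) n) with hval
  set dig : ℕ → ℤ := fun n => (Phi (h (e n)) n / (l (e n) : ℤ) ^ val n) % (l (e n) : ℤ) with hdig
  obtain ⟨c, hc⟩ := kronecker_kill (fun n => (e n, val n, dig n))
    (fun x q => (h x.1 q : ℝ) * ((mm (l x.1) x.2.2 : ℝ) / (l x.1 : ℝ) ^ (x.2.1 + 1)))
  refine ⟨c, ?_⟩
  intro a b ha hb hab he hl hw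
  set x := e (a * b) with hx
  have hxe : e (a ^ b * b) = x := he.symm
  obtain ⟨w', hw1, hw2⟩ := hw
  have hP1 : Phi (h x) (a * b) = Phi (h x) a + Phi (h x) b := Phi_mul _ (by omega) (by omega)
  have hP2 : Phi (h x) (a ^ b * b) = b * Phi (h x) a + Phi (h x) b := by
    rw [Phi_mul _ (by positivity) (by omega), Phi_pow]
  set A := Phi (h x) a with hA
  set B := Phi (h x) b with hB
  set p := l x with hp
  have : Fact p.Prime := ⟨hl⟩
  have hB0 : B ≠ 0 := by
    intro h0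
    rw [h0] at hw2
    exact hw2 (dvd_zero _)
  set w := padicValInt p B with hwdef
  have hwB : (p : ℤ) ^ w ∣ B := (padicValInt_dvd_iff w B).mpr (Or.inr le_rfl)
  have hwB' : ¬ (p : ℤ) ^ (w + 1) ∣ B := by
    intro h1
    rcases (padicValInt_dvd_iff (w + 1) B).mp h1 with h2 | h2
    · exact hB0 h2
    · omega
  have hww' : w ≤ w' := by
    by_contra hcon
    push Not at hcon
    exact hw2 ((pow_dvd_pow _ (by omega)).trans hwB)
  have hwA : (p : ℤ) ^ (w + 1) ∣ A := (pow_dvd_pow _ (by omega)).trans hw1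
  have hp0 : (p : ℤ) ≠ 0 := by exact_mod_cast hl.ne_zero
  have key : ∀ t : ℤ, padicValInt p (t * A + B) = w ∧
      ((t * A + B) / (p : ℤ) ^ w) % p = (B / (p : ℤ) ^ w) % p := by
    intro t
    have h1 : (p : ℤ) ^ (w + 1) ∣ t * A := hwA.mul_left t
    have h2 : ¬ (p : ℤ) ^ (w + 1) ∣ t * A + B := fun h => hwB' ((Int.dvd_add_right h1).mp h)
    have h3 : (p : ℤ) ^ w ∣ t * A + B := Int.dvd_add ((pow_dvd_pow _ (by omega)).trans h1) hwB
    have h4 : t * A + B ≠ 0 := by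
      intro h0; rw [h0] at h2; exact h2 (dvd_zero _)
    constructor
    · apply le_antisymm
      · by_contra hcon
        push Not at hcon
        exact h2 ((padicValInt_dvd_iff (w + 1) _).mpr (Or.inr hcon))
      · rcases (padicValInt_dvd_iff w _).mp h3 with h5 | h5
        · exact absurd h5 h4
        · exact h5
    · obtain ⟨A', hA'⟩ := h1
      have h5 : t * A + B = B + (p : ℤ) ^ w * (p * A') := by rw [hA', pow_succ]; ring
      rw [h5, Int.add_mul_ediv_left _ _ (pow_ne_zero _ hp0), Int.add_mul_emod_self_left]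
  have hk1 := key 1
  have hk2 := key b
  rw [one_mul, ← hP1] at hk1
  rw [← hP2] at hk2
  have hv1 : val (a * b) = w := hk1.1
  have hv2 : val (a ^ b * b) = w := by
    rw [hval]; simp only; rw [hxe]; exact hk2.1
  have hd1 : dig (a * b) = (B / (p : ℤ) ^ w) % p := by
    rw [hdig]; simp only; rw [hv1]; exact hk1.2
  have hd2 : dig (a ^ b * b) = (B / (p : ℤ) ^ w) % p := by
    rw [hdig]; simp only; rw [hv2, hxe]; exact hk2.2
  apply hc a b ha hb hab
  · rw [Prod.mk.injEq, Prod.mk.injEq]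
    exact ⟨he, by rw [hv1, hv2], by rw [hd1, hd2]⟩
  · intro k
    simp only
    rw [hv1, hd1, chi_Phi, ← hB]
    set r := (B / (p : ℤ) ^ w) % p with hr
    have hr' : ¬ (p : ℤ) ∣ r := by
      intro h1
      apply hwB'
      have h2 : (p : ℤ) ∣ B / (p : ℤ) ^ w := (Int.dvd_iff_emod_eq_zero).mpr (by
        have h3 : r % p = 0 := Int.emod_eq_zero_of_dvd h1
        rw [hr, Int.emod_emod_of_dvd _ dvd_rfl] at h3
        exact h3)
      rw [pow_succ]
      obtain ⟨B', hB'⟩ := hwB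
      rw [hB', Int.mul_ediv_cancel_left _ (pow_ne_zero _ hp0)] at h2
      rw [hB']
      exact mul_dvd_mul_left _ h2
    obtain ⟨B', hB'⟩ := hwB
    have h2 : B' = p * (B' / p) + r := by
      rw [hr, hB', Int.mul_ediv_cancel_left _ (pow_ne_zero _ hp0)]
      exact (Int.mul_ediv_add_emod _ _).symm
    have h3 := hmm p r hl hr' (k - mm p r * (B' / p))
    have h4 : (B : ℝ) * ((mm p r : ℝ) / (p : ℝ) ^ (w + 1)) - k =
        (mm p r * r : ℝ) / p - ((k - mm p r * (B' / p) : ℤ) : ℝ) := by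
      have hp0' : (p : ℝ) ≠ 0 := by exact_mod_cast hl.ne_zero
      have h5 : (B : ℝ) = (p : ℝ) ^ w * (p * ((B' / p : ℤ) : ℝ) + r) := by
        rw [hB']
        push_cast
        congr 1
        exact_mod_cast h2
      rw [h5, pow_succ]
      push_cast
      field_simp
      ring
    rw [h4]
    exact h3

end PRF
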